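import Mathlib
set_option autoImplicit false
open Complex

namespace Pool.Agent.Helper877.Ell

/-- entire functions `f` with `f (z+1) = f z` and `f (z+i) = c exp(-2 pi i n z) f z` -/
def Theta (n : ℕ) (c : ℂ) : Submodule ℂ (ℂ → ℂ) where
  carrier := {f | Differentiable ℂ f ∧ (∀ z, f (z + 1) = f z) ∧
    ∀ z, f (z + I) = c * exp (-(2 * (Real.pi : ℂ) * I * n * z)) * f z}
  add_mem' := by
    rintro f g ⟨h1, h2, h3⟩ ⟨k1, k2, k3⟩
    refine ⟨h1.add k1, fun z => ?_, fun z => ?_⟩
    · simp only [Pi.add_apply, h2, k2]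
    · simp only [Pi.add_apply, h3, k3]; ring
  zero_mem' := by
    refine ⟨differentiable_const 0, fun z => rfl, fun z => ?_⟩
    simp
  smul_mem' := by
    rintro a f ⟨h1, h2, h3⟩
    refine ⟨h1.const_smul a, fun z => ?_, fun z => ?_⟩
    · simp only [Pi.smul_apply, h2]
    · simp only [Pi.smul_apply, h3, smul_eq_mul]; ring

/-- the translation, a real irrational number -/
noncomputable def om : ℂ := (Real.sqrt 2 : ℝ)

noncomputable def cc (n : ℕ) : ℂ := exp (-((Real.pi : ℂ) * I * n ^ 2 * om))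

/-- degree `n` coefficient functions -/
noncomputable def Bfun (n : ℕ) : Submodule ℂ (ℂ → ℂ) :=
  if n = 0 then Submodule.span ℂ {fun _ => 1} else Theta n (cc n)

/-- `psi ↦ f(z) psi(z + n om)` -/
noncomputable def opr (n : ℕ) : (ℂ → ℂ) →ₗ[ℂ] Module.End ℂ (ℂ → ℂ) where
  toFun f :=
    { toFun := fun ψ z => f z * ψ (z + n * om)
      map_add' := by intro a b; funext z; simp [mul_add]
      map_smul' := by intro a b; funext z; simp; ring }
  map_add' := by intro a b; ext ψ z; simp [add_mul]
  map_smul' := by intro a b; ext ψ z; simp [mul_assoc]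

noncomputable def B (n : ℕ) : Submodule ℂ (Module.End ℂ (ℂ → ℂ)) := (Bfun n).map (opr n)

/-- the graded subalgebra of `R[X]` with `n`-th coefficient in `B n` -/
def gsub (K R : Type) [Field K] [Ring R] [Algebra K R] (B : ℕ → Submodule K R) (h1 : (1 : R) ∈ B 0)
    (hm : ∀ i j a b, a ∈ B i → b ∈ B j → a * b ∈ B (i + j)) : Subalgebra K (Polynomial R) where
  carrier := {p | ∀ n, p.coeff n ∈ B n}
  mul_mem' := by
    intro p q hp hq n
    rw [Polynomial.coeff_mul]
    refine Submodule.sum_mem _ fun x hx => ?_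
    have := hm x.1 x.2 _ _ (hp x.1) (hq x.2)
    rwa [Finset.HasAntidiagonal.mem_antidiagonal.1 hx] at this
  add_mem' := by
    intro p q hp hq n
    rw [Polynomial.coeff_add]
    exact Submodule.add_mem _ (hp n) (hq n)
  algebraMap_mem' := by
    intro r n
    rw [Polynomial.algebraMap_apply, Polynomial.coeff_C]
    split_ifs with h
    · subst h
      rw [Algebra.algebraMap_eq_smul_one]
      exact Submodule.smul_mem _ _ h1
    · exact Submodule.zero_mem _



theorem theta_mul (n m : ℕ) (f g : ℂ → ℂ) (hf : f ∈ Theta n (cc n)) (hg : g ∈ Theta m (cc m)) :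
    (fun z => f z * g (z + n * om)) ∈ Theta (n + m) (cc (n + m)) := by
  obtain ⟨hf1, hf2, hf3⟩ := hf
  obtain ⟨hg1, hg2, hg3⟩ := hg
  refine ⟨?_, ?_, ?_⟩
  · exact hf1.mul (hg1.comp (differentiable_id.add_const _))
  · intro z
    show f (z + 1) * g (z + 1 + n * om) = f z * g (z + n * om)
    rw [hf2, add_right_comm, hg2]
  · intro z
    show f (z + I) * g (z + I + n * om) = cc (n + m) * exp (-(2 * (Real.pi : ℂ) * I * ((n + m : ℕ) : ℂ) * z)) * (f z * g (z + n * om))
    rw [hf3, add_right_comm, hg3]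
    have key : cc (n + m) * exp (-(2 * (Real.pi : ℂ) * I * ((n + m : ℕ) : ℂ) * z)) =
        (cc n * exp (-(2 * (Real.pi : ℂ) * I * n * z))) *
          (cc m * exp (-(2 * (Real.pi : ℂ) * I * m * (z + n * om)))) := by
      unfold cc
      rw [← Complex.exp_add, ← Complex.exp_add, ← Complex.exp_add, ← Complex.exp_add]
      congr 1
      push_cast
      ring
    rw [key]
    ring

theorem entire_mul_ne_zero (f g : ℂ → ℂ) (hf : Differentiable ℂ f) (hg : Differentiable ℂ g)
    (hf0 : f ≠ 0) (hg0 : g ≠ 0) (s : ℂ) : (fun z => f z * g (z + s)) ≠ 0 := by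
  intro h
  obtain ⟨z0, hz0⟩ : ∃ z0, f z0 ≠ 0 := by
    by_contra hc
    push Not at hc
    exact hf0 (funext hc)
  have hev : ∀ᶠ z in nhds z0, f z ≠ 0 := hf.continuous.continuousAt.eventually_ne hz0
  have hg2 : Differentiable ℂ (fun z => g (z + s)) := hg.comp (differentiable_id.add_const s)
  have han : AnalyticOnNhd ℂ (fun z => g (z + s)) Set.univ := fun z _ => hg2.analyticAt z
  have han0 : AnalyticOnNhd ℂ (fun _ : ℂ => (0 : ℂ)) Set.univ := analyticOnNhd_const
  have heq : (fun z => g (z + s)) =ᶠ[nhds z0] (fun _ => 0) := by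
    filter_upwards [hev] with z hz
    have h1 := congrFun h z
    simp only [Pi.zero_apply] at h1
    exact (mul_eq_zero.1 h1).resolve_left hz
  have h2 := han.eq_of_eventuallyEq han0 heq
  apply hg0
  funext w
  have h3 := congrFun h2 (w - s)
  simpa using h3

theorem entire_div (X Y P Q : ℂ → ℂ) (hX : Differentiable ℂ X) (hY : Differentiable ℂ Y)
    (hP : Differentiable ℂ P) (hQ : Differentiable ℂ Q) (h : ∀ z, X z * P z = Q z * Y z)
    (hno : ∀ z, ¬ (X z = 0 ∧ Y z = 0)) :
    ∃ g : ℂ → ℂ, Differentiable ℂ g ∧ (∀ z, Q z = X z * g z) ∧ ∀ z, P z = g z * Y z := by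
  classical
  refine ⟨fun z => if X z = 0 then P z / Y z else Q z / X z, ?_, ?_, ?_⟩
  · intro z₀
    by_cases h0 : X z₀ = 0
    · have hY0 : Y z₀ ≠ 0 := fun hy => hno z₀ ⟨h0, hy⟩
      have hd : DifferentiableAt ℂ (fun z => P z / Y z) z₀ := (hP z₀).div (hY z₀) hY0
      refine hd.congr_of_eventuallyEq ?_
      have hev : ∀ᶠ z in nhds z₀, Y z ≠ 0 := hY.continuous.continuousAt.eventually_ne hY0
      filter_upwards [hev] with z hz
      by_cases hx : X z = 0
      · simp only [hx, if_true]
      · simp only [hx, if_false]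
        rw [div_eq_div_iff hx hz]
        rw [← h z]; ring
    · have hd : DifferentiableAt ℂ (fun z => Q z / X z) z₀ := (hQ z₀).div (hX z₀) h0
      refine hd.congr_of_eventuallyEq ?_
      have hev : ∀ᶠ z in nhds z₀, X z ≠ 0 := hX.continuous.continuousAt.eventually_ne h0
      filter_upwards [hev] with z hz
      simp only [hz, if_false]
  · intro z
    by_cases hx : X z = 0
    · have hY0 : Y z ≠ 0 := fun hy => hno z ⟨hx, hy⟩
      have h1 := h z
      rw [hx, zero_mul] at h1
      rw [hx, zero_mul]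
      exact (mul_eq_zero.1 h1.symm).resolve_right hY0
    · simp only [hx, if_false]
      field_simp
  · intro z
    by_cases hx : X z = 0
    · have hY0 : Y z ≠ 0 := fun hy => hno z ⟨hx, hy⟩
      simp only [hx, if_true]
      field_simp
    · simp only [hx, if_false]
      have h1 := h z
      field_simp
      linear_combination h1

-- TARGET:

theorem T5b_tq_zero (f X : ℂ → ℂ) (hf : Differentiable ℂ f) (hX : Differentiable ℂ X) (hX0 : X ≠ 0)
    (h : ∀ z, f z * X z = 0) : ∀ z, f z = 0 := by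
  by_contra hne
  push Not at hne
  obtain ⟨z0, hz0⟩ := hne
  have hf0 : f ≠ 0 := fun e => hz0 (by rw [e]; rfl)
  apply entire_mul_ne_zero f X hf hX hf0 hX0 0
  funext z
  simp only [add_zero]
  exact h z

theorem theta_quot (d n : ℕ) (a b : ℂ) (ha : a ≠ 0) (X Q g : ℂ → ℂ) (hX : X ∈ Theta d a) (hX0 : X ≠ 0)
    (hQ : Q ∈ Theta (d + n) b) (hg : Differentiable ℂ g) (h : ∀ z, Q z = X z * g z) :
    g ∈ Theta n (b / a) := by
  obtain ⟨hX1, hX2, hX3⟩ := hX
  obtain ⟨hQ1, hQ2, hQ3⟩ := hQ
  have hexpd : ∀ w : ℂ, Differentiable ℂ (fun z : ℂ => g (z + w)) := fun w =>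
    hg.comp (differentiable_id.add_const w)
  refine ⟨hg, ?_, ?_⟩
  · have key := T5b_tq_zero (fun z => g (z + 1) - g z) X ((hexpd 1).sub hg) hX1 hX0 (by
      intro z
      have h1 := hQ2 z
      rw [h, h, hX2] at h1
      linear_combination h1)
    intro z
    have := key z
    linear_combination this
  · have hE : Differentiable ℂ (fun z : ℂ => b / a * exp (-(2 * (Real.pi : ℂ) * I * n * z)) * g z) := by
      refine Differentiable.fun_mul (Differentiable.fun_mul (differentiable_const _) ?_) hg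
      fun_prop
    have key := T5b_tq_zero (fun z => g (z + I) - b / a * exp (-(2 * (Real.pi : ℂ) * I * n * z)) * g z) X
      ((hexpd I).sub hE) hX1 hX0 (by
      intro z
      have h1 := hQ3 z
      rw [h, h, hX3] at h1
      have h2 : exp (-(2 * (Real.pi : ℂ) * I * ((d + n : ℕ) : ℂ) * z)) =
          exp (-(2 * (Real.pi : ℂ) * I * d * z)) * exp (-(2 * (Real.pi : ℂ) * I * n * z)) := by
        rw [← exp_add]
        congr 1
        push_cast
        ring
      rw [h2] at h1
      have h3 : exp (-(2 * (Real.pi : ℂ) * I * d * z)) ≠ 0 := exp_ne_zero _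
      have h4 : a * exp (-(2 * (Real.pi : ℂ) * I * d * z)) ≠ 0 := mul_ne_zero ha h3
      apply mul_left_cancel₀ h4
      have h5 : a * (b / a) = b := by field_simp
      linear_combination h1 - exp (-(2 * (Real.pi : ℂ) * I * d * z)) *
        exp (-(2 * (Real.pi : ℂ) * I * n * z)) * g z * X z * h5)
    intro z
    have := key z
    linear_combination this

theorem theta_zeros_finite (d : ℕ) (a : ℂ) (ha : a ≠ 0) (X : ℂ → ℂ) (hX : X ∈ Theta d a) (hX0 : X ≠ 0) :
    ∃ Z : Finset ℂ, ∀ z, X z = 0 → ∃ p ∈ Z, ∃ m k : ℤ, z = p + (m + k * I) := by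
  obtain ⟨hdiff, h1, hI⟩ := hX
  have hP1 : Function.Periodic (fun z : ℂ => X z = 0) 1 := by
    intro z
    simp only [h1]
  have hPI : Function.Periodic (fun z : ℂ => X z = 0) I := by
    intro z
    simp only [hI, mul_eq_zero, ha, Complex.exp_ne_zero, false_or]
  have hKc : IsCompact (Set.Icc (0 : ℝ) 1 ×ℂ Set.Icc (0 : ℝ) 1) :=
    IsCompact.reProdIm isCompact_Icc isCompact_Icc
  have hfin : {z : ℂ | z ∈ (Set.Icc (0 : ℝ) 1 ×ℂ Set.Icc (0 : ℝ) 1) ∧ X z = 0}.Finite := by
    by_contra hinf
    obtain ⟨x, _, hacc⟩ := Set.Infinite.exists_accPt_of_subset_isCompact hinf hKc (fun z hz => hz.1)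
    apply hX0
    have hA : AnalyticOnNhd ℂ X Set.univ := hdiff.differentiableOn.analyticOnNhd isOpen_univ
    refine AnalyticOnNhd.eq_of_frequently_eq (z₀ := x) hA (analyticOnNhd_const : AnalyticOnNhd ℂ (fun _ => (0:ℂ)) Set.univ) ?_
    rw [accPt_iff_frequently_nhdsNE] at hacc
    exact hacc.mono (fun z hz => hz.2)
  refine ⟨hfin.toFinset, fun z hz => ⟨z - (⌊z.re⌋ + ⌊z.im⌋ * I), ?_, ⌊z.re⌋, ⌊z.im⌋, by ring⟩⟩
  rw [Set.Finite.mem_toFinset]
  refine ⟨?_, ?_⟩
  · rw [Complex.mem_reProdIm]
    constructor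
    · have e : (z - (⌊z.re⌋ + ⌊z.im⌋ * I)).re = z.re - ⌊z.re⌋ := by simp
      rw [e]
      exact ⟨by linarith [Int.floor_le z.re], by linarith [Int.lt_floor_add_one z.re]⟩
    · have e : (z - (⌊z.re⌋ + ⌊z.im⌋ * I)).im = z.im - ⌊z.im⌋ := by simp
      rw [e]
      exact ⟨by linarith [Int.floor_le z.im], by linarith [Int.lt_floor_add_one z.im]⟩
  · have e1 := hP1.int_mul (-⌊z.re⌋) z
    have e2 := hPI.int_mul (-⌊z.im⌋) (z + ((-⌊z.re⌋ : ℤ) : ℂ) * 1)
    have e3 : z - (⌊z.re⌋ + ⌊z.im⌋ * I) = z + ((-⌊z.re⌋ : ℤ) : ℂ) * 1 + ((-⌊z.im⌋ : ℤ) : ℂ) * I := by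
      push_cast; ring
    rw [e3]
    have e4 := e2.trans e1
    exact e4.symm ▸ hz

-- TARGET:

theorem theta_zeros_disjoint (d : ℕ) (a : ℂ) (ha : a ≠ 0) (X : ℂ → ℂ) (hX : X ∈ Theta d a) (hX0 : X ≠ 0) :
    ∃ N : ℕ, ∀ n : ℕ, N ≤ n → ∀ z, ¬ (X z = 0 ∧ X (z + n * om) = 0) := by
  obtain ⟨Z, hZ⟩ := theta_zeros_finite d a ha X hX hX0
  have hsub : ∀ p q : ℂ, {n : ℕ | ∃ m k : ℤ, (n : ℂ) * om = q - p + (m + k * I)}.Subsingleton := by
    intro p q n1 h1 n2 h2
    obtain ⟨m1, k1, e1⟩ := h1
    obtain ⟨m2, k2, e2⟩ := h2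
    have e3 : ((n1 : ℂ) - n2) * om = ((m1 - m2 : ℤ) : ℂ) + ((k1 - k2 : ℤ) : ℂ) * I := by
      push_cast
      linear_combination e1 - e2
    have e4 := congrArg Complex.re e3
    have hom_re : om.re = Real.sqrt 2 := by simp [om]
    have hom_im : om.im = 0 := by simp [om]
    simp only [Complex.mul_re, Complex.sub_re, Complex.natCast_re, Complex.sub_im,
      Complex.natCast_im, hom_re, hom_im, Complex.add_re, Complex.intCast_re, Complex.I_re,
      Complex.intCast_im, Complex.I_im, mul_zero, sub_zero, zero_mul, add_zero, sub_self] at e4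
    by_contra hne
    have hz : ((n1 : ℤ) - n2) ≠ 0 := by
      intro h
      apply hne
      have : (n1 : ℤ) = n2 := by linarith
      exact_mod_cast this
    have hirr := irrational_sqrt_two.intCast_mul hz
    refine hirr ⟨((m1 - m2 : ℤ) : ℚ), ?_⟩
    push_cast
    push_cast at e4
    exact e4.symm
  have hfin : {n : ℕ | ∃ z, X z = 0 ∧ X (z + n * om) = 0}.Finite := by
    refine Set.Finite.subset (s := ⋃ p ∈ Z, ⋃ q ∈ Z,
      {n : ℕ | ∃ m k : ℤ, (n : ℂ) * om = q - p + (m + k * I)}) ?_ ?_
    · refine Z.finite_toSet.biUnion fun p _ => ?_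
      exact Z.finite_toSet.biUnion fun q _ => (hsub p q).finite
    · rintro n ⟨z, h1, h2⟩
      obtain ⟨p, hp, m1, k1, e1⟩ := hZ z h1
      obtain ⟨q, hq, m2, k2, e2⟩ := hZ _ h2
      simp only [Set.mem_iUnion]
      refine ⟨p, hp, q, hq, m2 - m1, k2 - k1, ?_⟩
      push_cast
      linear_combination e2 - e1
  obtain ⟨N, hN⟩ := hfin.bddAbove
  refine ⟨N + 1, fun n hn z hz => ?_⟩
  have := hN (show n ∈ {n : ℕ | ∃ z, X z = 0 ∧ X (z + n * om) = 0} from ⟨z, hz⟩)
  omega

theorem fourier_rec (n : ℕ) (c : ℂ) (f : ℂ → ℂ) (hf : f ∈ Theta n c) (m : ℤ) :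
    (∫ x in (0:ℝ)..1, f x * exp (-(2 * (Real.pi : ℂ) * I * m * x))) =
      c * exp (2 * (Real.pi : ℂ) * m) *
        ∫ x in (0:ℝ)..1, f x * exp (-(2 * (Real.pi : ℂ) * I * (m + n : ℤ) * x)) := by
  obtain ⟨hd, h1, hI⟩ := hf
  set h : ℂ → ℂ := fun z => f z * exp (-(2 * (Real.pi : ℂ) * I * m * z)) with hh
  have hdiff : Differentiable ℂ h := by
    have : Differentiable ℂ (fun z : ℂ => exp (-(2 * (Real.pi : ℂ) * I * m * z))) := by
      fun_prop
    exact hd.mul this
  have hper : ∀ z, h (1 + z) = h z := by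
    intro z
    have e1 : f (1 + z) = f z := by rw [add_comm]; exact h1 z
    have e2 : exp (-(2 * (Real.pi : ℂ) * I * m * (1 + z))) = exp (-(2 * (Real.pi : ℂ) * I * m * z)) := by
      have : -(2 * (Real.pi : ℂ) * I * m * (1 + z)) =
          -(2 * (Real.pi : ℂ) * I * m * z) + ((-m : ℤ) : ℂ) * (2 * (Real.pi : ℂ) * I) := by
        push_cast; ring
      rw [this, Complex.exp_add, Complex.exp_int_mul_two_pi_mul_I, mul_one]
    simp only [hh, e1, e2]
  have key := Complex.integral_boundary_rect_eq_zero_of_differentiableOn h 0 (1 + I)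
    (hdiff.differentiableOn)
  simp only [Complex.zero_re, Complex.zero_im, Complex.add_re, Complex.add_im, Complex.one_re,
    Complex.one_im, Complex.I_re, Complex.I_im, add_zero, zero_add, Complex.ofReal_zero, zero_mul,
    Complex.ofReal_one, one_mul, hper] at key
  rw [add_sub_cancel_right, sub_eq_zero] at key
  have hL : (∫ x in (0:ℝ)..1, f x * exp (-(2 * (Real.pi : ℂ) * I * m * x))) =
      ∫ x in (0:ℝ)..1, h x := rfl
  rw [hL, key, ← intervalIntegral.integral_const_mul]
  refine intervalIntegral.integral_congr (fun x _ => ?_)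
  simp only [hh]
  rw [hI]
  have e3 : exp (-(2 * (Real.pi : ℂ) * I * m * (x + I))) =
      exp (2 * (Real.pi : ℂ) * m) * exp (-(2 * (Real.pi : ℂ) * I * m * x)) := by
    rw [← Complex.exp_add]
    congr 1
    ring_nf
    rw [Complex.I_sq]
    ring
  have e4 : exp (-(2 * (Real.pi : ℂ) * I * (m + n : ℤ) * x)) =
      exp (-(2 * (Real.pi : ℂ) * I * n * x)) * exp (-(2 * (Real.pi : ℂ) * I * m * x)) := by
    rw [← Complex.exp_add]
    congr 1
    push_cast
    ring
  rw [e3, e4]
  ring

theorem fourier_zero (f : ℂ → ℂ) (hf : Differentiable ℂ f) (hp : ∀ z, f (z + 1) = f z)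
    (h : ∀ m : ℤ, (∫ x in (0:ℝ)..1, f x * exp (-(2 * (Real.pi : ℂ) * I * m * x))) = 0) : f = 0 := by
  have hper : Function.Periodic (fun x : ℝ => f x) 1 := by
    intro x
    have := hp (x : ℂ)
    simpa using this
  have hcont : Continuous (fun x : ℝ => f x) := hf.continuous.comp continuous_ofReal
  let F : C(UnitAddCircle, ℂ) := ⟨hper.lift, continuous_coinduced_dom.mpr hcont⟩
  have hF : ∀ x : ℝ, F (x : UnitAddCircle) = f x := fun x => hper.lift_coe x
  have hc : ∀ m : ℤ, fourierCoeff F m = 0 := by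
    intro m
    rw [fourierCoeff_eq_intervalIntegral (F : UnitAddCircle → ℂ) m 0]
    have e : (∫ x in (0:ℝ)..0 + 1, fourier (-m) (x : UnitAddCircle) • F (x : UnitAddCircle))
        = ∫ x in (0:ℝ)..1, f x * exp (-(2 * (Real.pi : ℂ) * I * m * x)) := by
      rw [zero_add]
      congr 1
      funext x
      rw [hF, fourier_coe_apply, smul_eq_mul, mul_comm]
      congr 2
      push_cast
      ring
    rw [e, h m, smul_zero]
  have hsum : Summable (fourierCoeff F) := by
    have : fourierCoeff F = fun _ => (0:ℂ) := funext hc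
    rw [this]; exact summable_zero
  have hreal : ∀ x : ℝ, f x = 0 := by
    intro x
    have h1 := has_pointwise_sum_fourier_series_of_summable hsum (x : UnitAddCircle)
    have h2 : HasSum (fun i : ℤ => fourierCoeff F i • fourier i (x : UnitAddCircle)) 0 := by
      have : (fun i : ℤ => fourierCoeff F i • fourier i (x : UnitAddCircle)) = fun _ => (0:ℂ) := by
        funext i; rw [hc i, zero_smul]
      rw [this]; exact hasSum_zero
    rw [← hF x]
    exact h1.unique h2
  have han : AnalyticOnNhd ℂ f Set.univ := fun z _ => hf.analyticAt z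
  have hfreq : ∃ᶠ z in nhdsWithin (0:ℂ) {0}ᶜ, f z = 0 := by
    have hseq : Filter.Tendsto (fun n : ℕ => (((1:ℝ) / ((n:ℝ) + 1) : ℝ) : ℂ)) Filter.atTop
        (nhdsWithin (0:ℂ) {0}ᶜ) := by
      rw [tendsto_nhdsWithin_iff]
      constructor
      · have h1 := tendsto_one_div_add_atTop_nhds_zero_nat (𝕜 := ℝ)
        have h2 := (continuous_ofReal.tendsto 0).comp h1
        simpa [Function.comp_def] using h2
      · refine Filter.Eventually.of_forall fun n => ?_
        have : (1:ℝ) / ((n:ℝ) + 1) ≠ 0 := by positivity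
        simpa using (by exact_mod_cast this : (((1:ℝ) / ((n:ℝ) + 1) : ℝ) : ℂ) ≠ 0)
    exact hseq.frequently (Filter.Eventually.frequently
      (Filter.Eventually.of_forall fun n => hreal _))
  have := han.eq_of_frequently_eq (g := 0) (fun z _ => analyticAt_const) hfreq
  exact this

-- TARGET:

theorem F3_theta_aux_cont (f : ℂ → ℂ) (hf : Differentiable ℂ f) (m : ℤ) :
    IntervalIntegrable (fun x : ℝ => f x * exp (-(2 * (Real.pi : ℂ) * I * m * x)))
      MeasureTheory.volume 0 1 := by
  apply Continuous.intervalIntegrable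
  have h1 : Continuous f := hf.continuous
  have h2 : Continuous (fun x : ℝ => f x) := h1.comp Complex.continuous_ofReal
  refine h2.mul ?_
  fun_prop

theorem F3_theta_aux_all (n : ℕ) (hn : 0 < n) (c : ℂ) (hc : c ≠ 0) (f : ℂ → ℂ) (hf : f ∈ Theta n c)
    (h : ∀ r : ℕ, r < n →
      (∫ x in (0:ℝ)..1, f x * exp (-(2 * (Real.pi : ℂ) * I * ((r : ℕ) : ℤ) * x))) = 0) (m : ℤ) :
    (∫ x in (0:ℝ)..1, f x * exp (-(2 * (Real.pi : ℂ) * I * m * x))) = 0 := by
  obtain ⟨a, ha⟩ : ∃ a : ℤ → ℂ, ∀ m : ℤ,
      a m = (∫ x in (0:ℝ)..1, f x * exp (-(2 * (Real.pi : ℂ) * I * m * x))) := ⟨_, fun _ => rfl⟩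
  have hrec : ∀ m : ℤ, a m = c * exp (2 * (Real.pi : ℂ) * m) * a (m + n) := by
    intro m
    rw [ha, ha]
    exact fourier_rec n c f hf m
  have hiff : ∀ m : ℤ, a m = 0 ↔ a (m + n) = 0 := by
    intro m
    constructor
    · intro h0
      have h1 := hrec m
      rw [h0] at h1
      have h2 : c * exp (2 * (Real.pi : ℂ) * m) ≠ 0 := mul_ne_zero hc (exp_ne_zero _)
      rcases mul_eq_zero.1 h1.symm with h3 | h3
      · exact absurd h3 h2
      · exact h3
    · intro h0
      rw [hrec m, h0, mul_zero]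
  have hbase : ∀ r : ℕ, r < n → a (r : ℤ) = 0 := by
    intro r hr
    rw [ha]
    exact h r hr
  have hall : ∀ (r : ℕ), r < n → ∀ q : ℤ, a ((r : ℤ) + n * q) = 0 := by
    intro r hr q
    induction q using Int.induction_on with
    | zero => simpa using hbase r hr
    | succ i ih =>
      have h1 := (hiff ((r : ℤ) + n * i)).1 ih
      have e : (r : ℤ) + n * i + n = (r : ℤ) + n * (i + 1) := by ring
      rwa [e] at h1
    | pred i ih =>
      refine (hiff ((r : ℤ) + n * (-(i : ℤ) - 1))).2 ?_
      have e : (r : ℤ) + n * (-(i : ℤ) - 1) + n = (r : ℤ) + n * (-(i : ℤ)) := by ring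
      rwa [e]
  have hn' : (0 : ℤ) < n := by exact_mod_cast hn
  have h1 : 0 ≤ m % n := Int.emod_nonneg _ hn'.ne'
  have h2 : m % n < n := Int.emod_lt_of_pos _ hn'
  have h3 : ((m % n).toNat : ℤ) = m % n := Int.toNat_of_nonneg h1
  have h4 : (m % n).toNat < n := by omega
  have h5 := hall _ h4 (m / n)
  rw [h3, Int.emod_add_mul_ediv, ha] at h5
  exact h5

/-- the coefficient map -/
noncomputable def F3_thetaCoeff (n : ℕ) (c : ℂ) : Theta n c →ₗ[ℂ] (Fin n → ℂ) where
  toFun f := fun m => ∫ x in (0:ℝ)..1,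
    f.1 x * exp (-(2 * (Real.pi : ℂ) * I * (((m : ℕ) : ℤ) : ℂ) * x))
  map_add' := by
    intro f g
    funext m
    simp only [Submodule.coe_add, Pi.add_apply, add_mul]
    exact intervalIntegral.integral_add (F3_theta_aux_cont f.1 f.2.1 _) (F3_theta_aux_cont g.1 g.2.1 _)
  map_smul' := by
    intro r f
    funext m
    simp only [Submodule.coe_smul, Pi.smul_apply, smul_eq_mul, RingHom.id_apply, mul_assoc]
    exact intervalIntegral.integral_const_mul _ _

theorem theta_finrank_le (n : ℕ) (hn : 0 < n) (c : ℂ) (hc : c ≠ 0) :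
    Module.Finite ℂ (Theta n c) ∧ Module.finrank ℂ (Theta n c) ≤ n := by
  have hinj : Function.Injective (F3_thetaCoeff n c) := by
    rw [← LinearMap.ker_eq_bot, LinearMap.ker_eq_bot']
    intro f hf
    apply Subtype.ext
    refine fourier_zero f.1 f.2.1 f.2.2.1 ?_
    refine F3_theta_aux_all n hn c hc f.1 f.2 ?_
    intro r hr
    exact congrFun hf ⟨r, hr⟩
  refine ⟨Module.Finite.of_injective _ hinj, ?_⟩
  have := LinearMap.finrank_le_finrank_of_injective hinj
  simpa using this

open Filter Topology in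
theorem exists_G (q : ℂ) (hq : ‖q‖ < 1) : ∃ G : ℂ → ℂ, Differentiable ℂ G ∧ G 0 = 1 ∧
    ∀ w, G w = (1 - w) * G (q * w) := by
  have hne : ∀ n : ℕ, 1 - q^(n+1) ≠ 0 := by
    intro n h
    have h1 : q^(n+1) = 1 := (sub_eq_zero.1 h).symm
    have h2 : ‖q‖^(n+1) = 1 := by rw [← norm_pow, h1, norm_one]
    have h3 : ‖q‖^(n+1) < 1 := pow_lt_one₀ (norm_nonneg _) hq (Nat.succ_ne_zero n)
    linarith
  obtain ⟨a, ha0, ha⟩ : ∃ a : ℕ → ℂ, a 0 = 1 ∧ ∀ n, a (n+1) * (1 - q^(n+1)) = -(a n * q^n) := by
    refine ⟨fun n => ∏ i ∈ Finset.range n, (-(q^i)/(1-q^(i+1))), by simp, ?_⟩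
    intro n
    simp only [Finset.prod_range_succ]
    have := hne n
    field_simp
  have hR : ∀ R : ℝ, 0 < R → Summable (fun n => ‖a n‖ * R^n) := by
    intro R hR0
    have ht : Tendsto (fun n : ℕ => ‖q‖^n * R / ‖1 - q^(n+1)‖) atTop (𝓝 0) := by
      have h1 : Tendsto (fun n : ℕ => ‖q‖^n) atTop (𝓝 0) :=
        tendsto_pow_atTop_nhds_zero_of_lt_one (norm_nonneg _) hq
      have h2 : Tendsto (fun n : ℕ => q^(n+1)) atTop (𝓝 0) :=
        (tendsto_pow_atTop_nhds_zero_of_norm_lt_one hq).comp (tendsto_add_atTop_nat 1)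
      have h3 : Tendsto (fun n : ℕ => ‖1 - q^(n+1)‖) atTop (𝓝 ‖(1:ℂ) - 0‖) :=
        (tendsto_const_nhds.sub h2).norm
      have h4 := (h1.mul_const R).div h3 (by simp)
      rw [zero_mul, zero_div] at h4
      exact h4
    have hev := ht.eventually_le_const (show (0:ℝ) < 1/2 by norm_num)
    refine summable_of_ratio_norm_eventually_le (r := 1/2) (by norm_num) ?_
    filter_upwards [hev] with n hn
    rw [Real.norm_of_nonneg (by positivity), Real.norm_of_nonneg (by positivity)]
    have e1 : ‖a (n+1)‖ = ‖a n‖ * ‖q‖^n / ‖1 - q^(n+1)‖ := by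
      rw [eq_div_iff (norm_ne_zero_iff.2 (hne n)), ← norm_mul, ha n, norm_neg, norm_mul, norm_pow]
    rw [e1, pow_succ]
    calc ‖a n‖ * ‖q‖^n / ‖1 - q^(n+1)‖ * (R^n * R)
        = (‖q‖^n * R / ‖1 - q^(n+1)‖) * (‖a n‖ * R^n) := by ring
      _ ≤ 1/2 * (‖a n‖ * R^n) := by gcongr
  have hs : ∀ w : ℂ, Summable (fun n => a n * w^n) := by
    intro w
    refine Summable.of_norm_bounded (hR (‖w‖+1) (by positivity)) ?_
    intro n
    rw [norm_mul, norm_pow]
    gcongr
    linarith
  refine ⟨fun w => ∑' n, a n * w^n, ?_, ?_, ?_⟩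
  · intro w
    have hd : DifferentiableOn ℂ (fun w => ∑' n, a n * w^n) (Metric.ball 0 (‖w‖+1)) := by
      refine Complex.differentiableOn_tsum_of_summable_norm (hR (‖w‖+1) (by positivity))
        (fun n => by fun_prop) Metric.isOpen_ball ?_
      intro n z hz
      have hz' := (mem_ball_zero_iff.1 hz).le
      rw [norm_mul, norm_pow]
      gcongr
    exact hd.differentiableAt (Metric.isOpen_ball.mem_nhds (by simp))
  · show ∑' n, a n * (0:ℂ)^n = 1
    rw [tsum_eq_single 0]
    · simp [ha0]
    · intro n hn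
      simp [hn]
  · intro w
    show ∑' n, a n * w^n = (1-w) * ∑' n, a n * (q*w)^n
    rw [(hs w).tsum_eq_zero_add]
    have e2 : w * ∑' n, a n * (q*w)^n = ∑' n, w * (a n * (q*w)^n) := (tsum_mul_left).symm
    have e3 : ∑' n, a n * (q*w)^n = a 0 * (q*w)^0 + ∑' n, a (n+1) * (q*w)^(n+1) :=
      (hs (q*w)).tsum_eq_zero_add
    have hs1 : Summable (fun n => a (n+1) * (q*w)^(n+1)) := (summable_nat_add_iff 1).2 (hs (q*w))
    have hs2 : Summable (fun n => w * (a n * (q*w)^n)) := (hs (q*w)).mul_left w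
    rw [sub_mul, one_mul, e2, e3, pow_zero, pow_zero, add_sub_assoc, ← hs1.tsum_sub hs2]
    congr 1
    refine tsum_congr fun n => ?_
    have := ha n
    rw [mul_pow, mul_pow]
    linear_combination w^(n+1) * this

-- TARGET:

theorem exists_theta : ∃ θ : ℂ → ℂ, Differentiable ℂ θ ∧ (∀ z, θ (z + 1) = θ z) ∧
    (∀ z, θ (z + I) = -exp (-(2 * (Real.pi : ℂ) * I * z)) * θ z) ∧
    ∀ z, θ z = 0 ↔ ∃ m k : ℤ, z = m + k * I := by
  obtain ⟨q, hq⟩ : ∃ q : ℂ, q = exp (-(2 * (Real.pi : ℂ))) := ⟨_, rfl⟩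
  have hqn : ‖q‖ < 1 := by
    rw [hq, Complex.norm_exp]
    have h1 : (-(2 * (Real.pi : ℂ))).re = -(2 * Real.pi) := by simp
    rw [h1, Real.exp_lt_one_iff]
    linarith [Real.pi_pos]
  have hq0 : q ≠ 0 := by rw [hq]; exact Complex.exp_ne_zero _
  obtain ⟨G, hGd, hG0, hG⟩ := exists_G q hqn
  have hzero : ∀ (m : ℕ) (w : ℂ), q ^ m * w = 1 → G w = 0 := by
    intro m
    induction m with
    | zero =>
      intro w h
      have h1 : w = 1 := by simpa using h
      rw [hG w, h1]; ring
    | succ m ih =>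
      intro w h
      have h1 := ih (q * w) (by rw [← h]; ring)
      rw [hG w, h1, mul_zero]
  have hnz : ∀ w : ℂ, G w = 0 → ∃ m : ℕ, q ^ m * w = 1 := by
    intro w hw
    by_contra hcon
    push Not at hcon
    have hall : ∀ m : ℕ, G (q ^ m * w) = 0 := by
      intro m
      induction m with
      | zero => simpa using hw
      | succ m ih =>
        have h1 := hG (q ^ m * w)
        rw [ih] at h1
        have h2 : (1 - q ^ m * w) ≠ 0 := sub_ne_zero.mpr (fun h => hcon m h.symm)
        have h3 := (mul_eq_zero.mp h1.symm).resolve_left h2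
        rw [← h3]; congr 1; ring
    have hlim : Filter.Tendsto (fun m : ℕ => G (q ^ m * w)) Filter.atTop (nhds (G 0)) := by
      have h1 : Filter.Tendsto (fun m : ℕ => q ^ m * w) Filter.atTop (nhds 0) := by
        have h2 := (tendsto_pow_atTop_nhds_zero_of_norm_lt_one hqn).mul_const w
        simpa using h2
      exact (hGd.continuous.tendsto 0).comp h1
    simp only [hall] at hlim
    have h3 := tendsto_nhds_unique hlim tendsto_const_nhds
    rw [hG0] at h3
    exact one_ne_zero h3
  -- the two exponentials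
  have hE1 : ∀ (z : ℂ) (m : ℕ), q ^ m * exp (2 * (Real.pi : ℂ) * I * z) =
      exp ((z + m * I) * (2 * (Real.pi : ℂ) * I)) := by
    intro z m
    rw [hq, ← Complex.exp_nat_mul, ← Complex.exp_add]
    congr 1
    have hI : I * I = -1 := Complex.I_mul_I
    linear_combination (-(2 * (Real.pi : ℂ) * m)) * hI
  have hE2 : ∀ (z : ℂ) (m : ℕ), q ^ m * (q * exp (-(2 * (Real.pi : ℂ) * I * z))) =
      exp (((m + 1 : ℕ) * I - z) * (2 * (Real.pi : ℂ) * I)) := by
    intro z m
    rw [← mul_assoc, ← pow_succ, hq, ← Complex.exp_nat_mul, ← Complex.exp_add]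
    congr 1
    have hI : I * I = -1 := Complex.I_mul_I
    linear_combination (-(2 * (Real.pi : ℂ) * ((m + 1 : ℕ) : ℂ))) * hI
  have h2pi : (2 * (Real.pi : ℂ) * I) ≠ 0 := Complex.two_pi_I_ne_zero
  refine ⟨fun z => G (exp (2 * (Real.pi : ℂ) * I * z)) * G (q * exp (-(2 * (Real.pi : ℂ) * I * z))),
    ?_, ?_, ?_, ?_⟩
  · have hd1 : Differentiable ℂ (fun z : ℂ => exp (2 * (Real.pi : ℂ) * I * z)) :=
      (differentiable_id.const_mul (2 * (Real.pi : ℂ) * I)).cexp
    have hd2 : Differentiable ℂ (fun z : ℂ => q * exp (-(2 * (Real.pi : ℂ) * I * z))) :=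
      ((differentiable_id.const_mul (2 * (Real.pi : ℂ) * I)).neg.cexp).const_mul q
    exact (hGd.comp hd1).mul (hGd.comp hd2)
  · intro z
    have h1 : exp (2 * (Real.pi : ℂ) * I * (z + 1)) = exp (2 * (Real.pi : ℂ) * I * z) := by
      rw [mul_add, mul_one, Complex.exp_add, Complex.exp_two_pi_mul_I, mul_one]
    have h2 : exp (-(2 * (Real.pi : ℂ) * I * (z + 1))) = exp (-(2 * (Real.pi : ℂ) * I * z)) := by
      rw [Complex.exp_neg, Complex.exp_neg, h1]
    simp only [h1, h2]
  · intro z
    have hI : I * I = -1 := Complex.I_mul_I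
    have h1 : exp (2 * (Real.pi : ℂ) * I * (z + I)) = q * exp (2 * (Real.pi : ℂ) * I * z) := by
      rw [hq, ← Complex.exp_add]
      congr 1
      linear_combination (2 * (Real.pi : ℂ)) * hI
    have hw0 : exp (2 * (Real.pi : ℂ) * I * z) ≠ 0 := Complex.exp_ne_zero _
    have h2 : q * exp (-(2 * (Real.pi : ℂ) * I * (z + I))) = exp (-(2 * (Real.pi : ℂ) * I * z)) := by
      rw [Complex.exp_neg, Complex.exp_neg, h1]
      field_simp
    simp only [h1, h2]
    rw [hG (exp (-(2 * (Real.pi : ℂ) * I * z))), hG (exp (2 * (Real.pi : ℂ) * I * z))]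
    rw [Complex.exp_neg]
    field_simp
    ring
  · intro z
    simp only [mul_eq_zero]
    constructor
    · rintro (h | h)
      · obtain ⟨m, hm⟩ := hnz _ h
        rw [hE1, Complex.exp_eq_one_iff] at hm
        obtain ⟨n, hn⟩ := hm
        have h3 : z + m * I = n := mul_right_cancel₀ h2pi hn
        refine ⟨n, -(m : ℤ), ?_⟩
        push_cast
        linear_combination h3
      · obtain ⟨m, hm⟩ := hnz _ h
        rw [hE2, Complex.exp_eq_one_iff] at hm
        obtain ⟨n, hn⟩ := hm
        have h3 : ((m + 1 : ℕ) : ℂ) * I - z = n := mul_right_cancel₀ h2pi hn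
        refine ⟨-n, ((m + 1 : ℕ) : ℤ), ?_⟩
        push_cast at h3 ⊢
        linear_combination -h3
    · rintro ⟨m, k, hz⟩
      rcases le_or_gt k 0 with hk | hk
      · left
        obtain ⟨j, hj⟩ := Int.eq_ofNat_of_zero_le (by omega : (0 : ℤ) ≤ -k)
        apply hzero j
        rw [hE1, Complex.exp_eq_one_iff]
        refine ⟨m, ?_⟩
        congr 1
        have hk2 : (k : ℂ) = -(j : ℂ) := by
          have : k = -(j : ℤ) := by omega
          rw [this]; push_cast; ring
        rw [hz, hk2]; ring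
      · right
        obtain ⟨j, hj⟩ := Int.eq_ofNat_of_zero_le (by omega : (0 : ℤ) ≤ k - 1)
        apply hzero j
        rw [hE2, Complex.exp_eq_one_iff]
        refine ⟨-m, ?_⟩
        congr 1
        have hk2 : (k : ℂ) = (j : ℂ) + 1 := by
          have : k = (j : ℤ) + 1 := by omega
          rw [this]; push_cast; ring
        rw [hz, hk2]; push_cast; ring

-- TARGET:

theorem theta_with_zeros (n : ℕ) (c : ℂ) (hc : c ≠ 0) : ∃ s : ℂ, ∀ p : Fin n → ℂ,
    ∃ f ∈ Theta (n + 1) c, ∀ z, f z = 0 ↔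
      ((∃ i, ∃ m k : ℤ, z = p i + (m + k * I)) ∨ ∃ m k : ℤ, z = s - ∑ i, p i + (m + k * I)) := by
  obtain ⟨θ, hd, h1, hI, hz⟩ := exists_theta
  have hpi : (2 * (Real.pi : ℂ) * I) ≠ 0 := by
    simp [Real.pi_ne_zero]
  have hc' : (-1 : ℂ) ^ (n + 1) * c ≠ 0 := mul_ne_zero (pow_ne_zero _ (by norm_num)) hc
  obtain ⟨s, hs⟩ : ∃ s : ℂ, exp (2 * (Real.pi : ℂ) * I * s) = (-1) ^ (n + 1) * c := by
    refine ⟨log ((-1) ^ (n + 1) * c) / (2 * (Real.pi : ℂ) * I), ?_⟩
    rw [mul_div_cancel₀ _ hpi, exp_log hc']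
  refine ⟨s, fun p => ?_⟩
  have hdf : ∀ a : ℂ, Differentiable ℂ (fun z => θ (z - a)) := fun a =>
    hd.comp (differentiable_id.sub_const a)
  refine ⟨fun z => (∏ i, θ (z - p i)) * θ (z - (s - ∑ i, p i)), ⟨?_, ?_, ?_⟩, ?_⟩
  · refine Differentiable.mul ?_ (hdf _)
    apply Differentiable.fun_finset_prod
    intro i _
    exact hdf _
  · intro z
    have e : ∀ a : ℂ, θ (z + 1 - a) = θ (z - a) := by
      intro a
      rw [show z + 1 - a = (z - a) + 1 by ring, h1]
    simp only [e]
  · intro z
    have e : ∀ a : ℂ, θ (z + I - a) = -exp (-(2 * (Real.pi : ℂ) * I * (z - a))) * θ (z - a) := by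
      intro a
      rw [show z + I - a = (z - a) + I by ring, hI]
    simp only [e]
    rw [Finset.prod_mul_distrib]
    have e2 : (∏ i : Fin n, -exp (-(2 * (Real.pi : ℂ) * I * (z - p i)))) =
        (-1) ^ n * exp (∑ i : Fin n, -(2 * (Real.pi : ℂ) * I * (z - p i))) := by
      rw [exp_sum, Finset.prod_neg, Finset.card_univ, Fintype.card_fin]
    have e3 : ∑ i : Fin n, -(2 * (Real.pi : ℂ) * I * (z - p i)) =
        -(2 * (Real.pi : ℂ) * I * n * z) + 2 * (Real.pi : ℂ) * I * ∑ i, p i := by
      rw [Finset.sum_neg_distrib, ← Finset.mul_sum, Finset.sum_sub_distrib, Finset.sum_const,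
        Finset.card_univ, Fintype.card_fin, nsmul_eq_mul]
      ring
    rw [e2, e3]
    have e4 : c * exp (-(2 * (Real.pi : ℂ) * I * ((n + 1 : ℕ) : ℂ) * z)) =
        (-1) ^ n * exp (-(2 * (Real.pi : ℂ) * I * n * z) + 2 * (Real.pi : ℂ) * I * ∑ i, p i) *
          -exp (-(2 * (Real.pi : ℂ) * I * (z - (s - ∑ i, p i)))) := by
      have e5 : exp (-(2 * (Real.pi : ℂ) * I * n * z) + 2 * (Real.pi : ℂ) * I * ∑ i, p i) *
          exp (-(2 * (Real.pi : ℂ) * I * (z - (s - ∑ i, p i)))) =
          exp (2 * (Real.pi : ℂ) * I * s) * exp (-(2 * (Real.pi : ℂ) * I * ((n + 1 : ℕ) : ℂ) * z)) := by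
        rw [← exp_add, ← exp_add]
        congr 1
        push_cast
        ring
      have e6 : (-1 : ℂ) ^ n * (-1) ^ n = 1 := by
        rw [← mul_pow]
        norm_num
      calc c * exp (-(2 * (Real.pi : ℂ) * I * ((n + 1 : ℕ) : ℂ) * z)) =
          ((-1 : ℂ) ^ n * (-1) ^ n) * (c * exp (-(2 * (Real.pi : ℂ) * I * ((n + 1 : ℕ) : ℂ) * z))) := by
            rw [e6, one_mul]
        _ = -((-1) ^ n * (((-1) ^ (n + 1) * c) * exp (-(2 * (Real.pi : ℂ) * I * ((n + 1 : ℕ) : ℂ) * z)))) := by
            ring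
        _ = -((-1) ^ n * (exp (-(2 * (Real.pi : ℂ) * I * n * z) + 2 * (Real.pi : ℂ) * I * ∑ i, p i) *
          exp (-(2 * (Real.pi : ℂ) * I * (z - (s - ∑ i, p i)))))) := by
            rw [← hs, ← e5]
        _ = _ := by ring
    rw [e4]
    ring
  · intro z
    rw [mul_eq_zero, Finset.prod_eq_zero_iff]
    constructor
    · rintro (⟨i, _, hi⟩ | h)
      · obtain ⟨m, k, hmk⟩ := (hz _).mp hi
        exact Or.inl ⟨i, m, k, by rw [← hmk]; ring⟩
      · obtain ⟨m, k, hmk⟩ := (hz _).mp h
        exact Or.inr ⟨m, k, by rw [← hmk]; ring⟩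
    · rintro (⟨i, m, k, hmk⟩ | ⟨m, k, hmk⟩)
      · exact Or.inl ⟨i, Finset.mem_univ _, (hz _).mpr ⟨m, k, by rw [hmk]; ring⟩⟩
      · exact Or.inr ((hz _).mpr ⟨m, k, by rw [hmk]; ring⟩)

-- TARGET:

theorem theta_le_finrank (n : ℕ) (hn : 0 < n) (c : ℂ) (hc : c ≠ 0) :
    n ≤ Module.finrank ℂ (Theta n c) := by
  haveI := (theta_finrank_le n hn c hc).1
  obtain ⟨k, rfl⟩ : ∃ k, n = k + 1 := ⟨n - 1, by omega⟩
  obtain ⟨s, hs⟩ := theta_with_zeros k c hc
  obtain ⟨t, ht⟩ : ∃ t : ℝ, ((k : ℝ) + 1) * t = s.im + 1 / 2 :=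
    ⟨(s.im + 1 / 2) / ((k : ℝ) + 1), by field_simp⟩
  have hk : (0 : ℝ) < (k : ℝ) + 1 := by positivity
  let p : Fin (k + 1) → ℂ := fun j => (((j : ℕ) : ℝ) / ((k : ℝ) + 1) : ℝ) + (t : ℂ) * I
  have hpre : ∀ j, (p j).re = ((j : ℕ) : ℝ) / ((k : ℝ) + 1) := by
    intro j
    simp only [p, Complex.add_re, Complex.ofReal_re, Complex.mul_re, Complex.I_re, Complex.I_im,
      Complex.ofReal_im]
    ring
  have hpim : ∀ j, (p j).im = t := by
    intro j
    simp only [p, Complex.add_im, Complex.ofReal_re, Complex.mul_im, Complex.I_re, Complex.I_im,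
      Complex.ofReal_im]
    ring
  have hsum : (∑ j, p j).im = s.im + 1 / 2 := by
    rw [Complex.im_sum]
    simp only [hpim]
    rw [Finset.sum_const, Finset.card_univ, Fintype.card_fin, nsmul_eq_mul, ← ht]
    push_cast
    ring
  choose f hf hz using fun i : Fin (k + 1) => hs (fun j => p (i.succAbove j))
  have hne : ∀ i, f i (p i) ≠ 0 := by
    intro i h0
    rcases (hz i (p i)).1 h0 with ⟨j, m, l, h⟩ | ⟨m, l, h⟩
    · have h1 := congrArg Complex.re h
      simp only [Complex.add_re, hpre, Complex.intCast_re, Complex.mul_re, Complex.I_re,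
        Complex.I_im, Complex.intCast_im, mul_zero, mul_one, sub_zero, add_zero] at h1
      have h2 : ((i : ℕ) : ℝ) = ((i.succAbove j : Fin (k + 1)) : ℕ) + (m : ℝ) * ((k : ℝ) + 1) := by
        field_simp at h1
        linarith
      have h3 : ((i : ℕ) : ℤ) = (((i.succAbove j : Fin (k + 1)) : ℕ) : ℤ) + m * ((k : ℤ) + 1) := by
        exact_mod_cast h2
      have hi := i.2
      have hj := (i.succAbove j).2
      have h4 : m = 0 := by
        by_contra hm
        rcases lt_or_gt_of_ne hm with h5 | h5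
        · have : m * ((k : ℤ) + 1) ≤ (-1) * ((k : ℤ) + 1) :=
            mul_le_mul_of_nonneg_right (by omega) (by positivity)
          omega
        · have : 1 * ((k : ℤ) + 1) ≤ m * ((k : ℤ) + 1) :=
            mul_le_mul_of_nonneg_right (by omega) (by positivity)
          omega
      subst h4
      have h5 : i = i.succAbove j := by
        apply Fin.ext
        omega
      exact Fin.succAbove_ne i j h5.symm
    · have h1 := congrArg Complex.im h
      have h2 : ∑ j, p j = p i + ∑ j, p (i.succAbove j) := Fin.sum_univ_succAbove p i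
      have h3 := congrArg Complex.im h2
      rw [hsum, Complex.add_im] at h3
      simp only [Complex.add_im, Complex.sub_im, Complex.intCast_re, Complex.mul_im, Complex.I_re,
        Complex.I_im, Complex.intCast_im, mul_zero, mul_one, zero_add, add_zero] at h1
      have h4 : (l : ℝ) = 1 / 2 := by linarith
      have h5 : (2 * l : ℤ) = 1 := by
        have : (2 : ℝ) * l = 1 := by linarith
        exact_mod_cast this
      omega
  have hzero : ∀ i j, j ≠ i → f i (p j) = 0 := by
    intro i j hij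
    rw [hz i]
    left
    obtain ⟨j', hj'⟩ := Fin.exists_succAbove_eq hij
    exact ⟨j', 0, 0, by rw [hj']; simp⟩
  have hli : LinearIndependent ℂ (fun i : Fin (k + 1) => (⟨f i, hf i⟩ : Theta (k + 1) c)) := by
    rw [Fintype.linearIndependent_iff]
    intro a ha j
    have h1 := congrArg (fun x : Theta (k + 1) c => (x : ℂ → ℂ) (p j)) ha
    simp only [Submodule.coe_sum, Submodule.coe_smul, Finset.sum_apply, Pi.smul_apply,
      smul_eq_mul, Submodule.coe_zero, Pi.zero_apply] at h1
    rw [Finset.sum_eq_single j (fun i _ hij => by rw [hzero i j hij.symm, mul_zero])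
      (fun h => absurd (Finset.mem_univ _) h)] at h1
    exact (mul_eq_zero.1 h1).resolve_right (hne j)
  have := hli.fintype_card_le_finrank
  simpa using this

theorem T8_j35015_t (x : ℝ) : ∃ t : ℝ, (∀ k : ℤ, t ≠ k) ∧ (∀ k : ℤ, x - t ≠ k) := by
  by_cases h : ∃ k : ℤ, x - 1/2 = k
  · refine ⟨1/3, ?_, ?_⟩
    · intro k hk
      have h1 : (1:ℝ) = 3 * k := by linarith
      have h2 : (1:ℤ) = 3 * k := by exact_mod_cast h1
      omega
    · intro k hk
      obtain ⟨l, hl⟩ := h
      have h1 : (6:ℝ) * (k - l) = 1 := by linarith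
      have h2 : (6:ℤ) * (k - l) = 1 := by exact_mod_cast h1
      omega
  · refine ⟨1/2, ?_, ?_⟩
    · intro k hk
      have h1 : (1:ℝ) = 2 * k := by linarith
      have h2 : (1:ℤ) = 2 * k := by exact_mod_cast h1
      omega
    · intro k hk
      exact h ⟨k, hk⟩

theorem T8_j35015_cong (n : ℕ) (hn : 0 < n) (i j : ℕ) (hij : i ≠ j) (m k : ℤ)
    (h : ((i * n : ℕ) : ℂ) * om = ((j * n : ℕ) : ℂ) * om + (m + k * I)) : False := by
  have hre := congrArg Complex.re h
  simp [om] at hre
  have h2 : Irrational (Real.sqrt 2) := irrational_sqrt_two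
  have hne : (((i:ℤ) - j) * n : ℤ) ≠ 0 := by
    apply mul_ne_zero
    · intro h0
      apply hij
      have : (i:ℤ) = j := by linarith
      exact_mod_cast this
    · exact_mod_cast hn.ne'
  exact (h2.intCast_mul hne).ne_int m (by push_cast; linarith)

theorem T8_j35015_im (a : ℕ) : ((a : ℂ) * om).im = 0 := by
  simp [om]

theorem T8_j35015_one (D : ℕ) (i : ℕ) (hi : i < D) : ∃ f ∈ Theta (D + 1) (cc (D + 1)),
    f ((i * (D + 1) : ℕ) * om) = 1 ∧ ∀ j < D, j ≠ i → f ((j * (D + 1) : ℕ) * om) = 0 := by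
  obtain ⟨s, hs⟩ := theta_with_zeros D (cc (D + 1)) (by unfold cc; exact exp_ne_zero _)
  obtain ⟨t, ht1, ht2⟩ := T8_j35015_t s.im
  obtain ⟨f, hf, hz⟩ := hs (fun j : Fin D => if (j : ℕ) = i then (t : ℂ) * I
    else (((j : ℕ) * (D + 1) : ℕ) : ℂ) * om)
  have hsum : (∑ j : Fin D, (if (j : ℕ) = i then (t : ℂ) * I
    else (((j : ℕ) * (D + 1) : ℕ) : ℂ) * om)).im = t := by
    rw [Complex.im_sum, Finset.sum_eq_single (⟨i, hi⟩ : Fin D)]
    · simp
    · intro b _ hb
      have hb' : (b : ℕ) ≠ i := fun h => hb (Fin.ext h)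
      rw [if_neg hb', T8_j35015_im]
    · intro h
      exact absurd (Finset.mem_univ _) h
  have hne : f ((i * (D + 1) : ℕ) * om) ≠ 0 := by
    intro h0
    rw [hz] at h0
    rcases h0 with ⟨j, m, k, h⟩ | ⟨m, k, h⟩
    · by_cases hji : (j : ℕ) = i
      · rw [if_pos hji] at h
        have him := congrArg Complex.im h
        rw [T8_j35015_im] at him
        simp at him
        apply ht1 (-k)
        push_cast
        linarith
      · rw [if_neg hji] at h
        exact T8_j35015_cong (D + 1) (Nat.succ_pos D) i j (fun h' => hji h'.symm) m k h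
    · have him := congrArg Complex.im h
      rw [T8_j35015_im, Complex.add_im, Complex.sub_im, hsum] at him
      simp at him
      apply ht2 (-k)
      push_cast
      linarith
  refine ⟨(f ((i * (D + 1) : ℕ) * om))⁻¹ • f, Submodule.smul_mem _ _ hf, ?_, ?_⟩
  · simp only [Pi.smul_apply, smul_eq_mul]
    exact inv_mul_cancel₀ hne
  · intro j hj hji
    have : f ((j * (D + 1) : ℕ) * om) = 0 := by
      rw [hz]
      left
      refine ⟨⟨j, hj⟩, 0, 0, ?_⟩
      simp [hji]
    simp only [Pi.smul_apply, smul_eq_mul, this, mul_zero]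

-- TARGET:

theorem theta_interp (D : ℕ) : ∃ n : ℕ, 0 < n ∧ ∀ S : Finset ℕ, ∃ f ∈ Theta n (cc n),
    ∀ i < D, f ((i * n : ℕ) * om) = if i ∈ S then 1 else 0 := by
  refine ⟨D + 1, Nat.succ_pos D, fun S => ?_⟩
  choose f hf h1 h0 using fun i : Fin D => T8_j35015_one D i i.2
  refine ⟨∑ i : Fin D, (if (i : ℕ) ∈ S then (1 : ℂ) else 0) • f i,
    Submodule.sum_mem _ fun i _ => Submodule.smul_mem _ _ (hf i), ?_⟩
  intro i hi
  rw [Finset.sum_apply, Finset.sum_eq_single (⟨i, hi⟩ : Fin D)]
  · simp only [Pi.smul_apply, smul_eq_mul]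
    rw [h1 ⟨i, hi⟩, mul_one]
  · intro b _ hb
    have hb' : i ≠ (b : ℕ) := fun h => hb (Fin.ext h.symm)
    simp only [Pi.smul_apply, smul_eq_mul]
    rw [h0 b i hi hb', mul_zero]
  · intro h
    exact absurd (Finset.mem_univ _) h

-- TARGET:

theorem theta_star (d : ℕ) (hd : 0 < d) (X : ℂ → ℂ) (hX : X ∈ Theta d (cc d)) (hX0 : X ≠ 0) :
    ∃ N : ℕ, ∀ n : ℕ, N ≤ n → ∀ y ∈ Theta (n + d) (cc (n + d)),
      ∃ u ∈ Theta n (cc n), ∃ v ∈ Theta n (cc n),
        ∀ z, y z = X z * u (z + d * om) + v z * X (z + n * om) := by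
  have hcc : ∀ n, cc n ≠ 0 := fun n => Complex.exp_ne_zero _
  obtain ⟨N0, hN0⟩ := theta_zeros_disjoint d (cc d) (hcc d) X hX hX0
  refine ⟨max N0 (d + 1), fun n hn y hy => ?_⟩
  have hn0 : N0 ≤ n := le_trans (le_max_left _ _) hn
  have hnd : d + 1 ≤ n := le_trans (le_max_right _ _) hn
  have hnpos : 0 < n := by omega
  have m1 : ∀ u ∈ Theta n (cc n), (fun z => X z * u (z + d * om)) ∈ Theta (n + d) (cc (n + d)) := by
    intro u hu
    have := theta_mul d n X u hX hu
    rwa [add_comm d n] at this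
  have m2 : ∀ v ∈ Theta n (cc n), (fun z => v z * X (z + n * om)) ∈ Theta (n + d) (cc (n + d)) :=
    fun v hv => theta_mul n d v X hv hX
  let Φ : (Theta n (cc n) × Theta n (cc n)) →ₗ[ℂ] Theta (n + d) (cc (n + d)) :=
    { toFun := fun p => ⟨fun z => X z * p.1.1 (z + d * om) + p.2.1 z * X (z + n * om),
        (Theta (n + d) (cc (n + d))).add_mem (m1 p.1.1 p.1.2) (m2 p.2.1 p.2.2)⟩
      map_add' := by
        intro p q
        apply Subtype.ext
        funext z
        simp only [Prod.fst_add, Prod.snd_add, Submodule.coe_add, Pi.add_apply]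
        ring
      map_smul' := by
        intro a p
        apply Subtype.ext
        funext z
        simp only [Prod.smul_fst, Prod.smul_snd, Submodule.coe_smul, Pi.smul_apply, smul_eq_mul,
          RingHom.id_apply]
        ring }
  have hker : ∀ p, Φ p = 0 → ∃ g ∈ Theta (n - d) (cc n / cc d),
      (∀ z, p.2.1 z = -(X z * g z)) ∧ ∀ z, p.1.1 (z + d * om) = g z * X (z + n * om) := by
    intro p hp
    have hz : ∀ z, X z * p.1.1 (z + d * om) + p.2.1 z * X (z + n * om) = 0 := by
      intro z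
      have h1 : (Φ p).1 z = 0 := by rw [hp]; rfl
      exact h1
    obtain ⟨g, hg, hg1, hg2⟩ := entire_div X (fun z => X (z + n * om))
      (fun z => p.1.1 (z + d * om)) (fun z => -(p.2.1 z)) hX.1
      (hX.1.comp (differentiable_id.add_const _))
      (p.1.2.1.comp (differentiable_id.add_const _)) p.2.2.1.neg
      (fun z => by linear_combination hz z) (hN0 n hn0)
    refine ⟨g, ?_, fun z => ?_, fun z => hg2 z⟩
    · refine theta_quot d (n - d) (cc d) (cc n) (hcc d) X (fun z => -(p.2.1 z)) g hX hX0 ?_ hg hg1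
      have e : d + (n - d) = n := by omega
      rw [e]
      exact (Theta n (cc n)).neg_mem p.2.2
    · have := hg1 z
      linear_combination -this
  obtain ⟨hfin, hle⟩ := theta_finrank_le n hnpos (cc n) (hcc n)
  obtain ⟨hfin', hle'⟩ := theta_finrank_le (n + d) (by omega) (cc (n + d)) (hcc (n + d))
  obtain ⟨hfin'', hle''⟩ := theta_finrank_le (n - d) (by omega) (cc n / cc d)
    (div_ne_zero (hcc n) (hcc d))
  have hge := theta_le_finrank n hnpos (cc n) (hcc n)
  haveI := hfin
  haveI := hfin'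
  haveI := hfin''
  let κ : ↥(LinearMap.ker Φ) →ₗ[ℂ] (ℂ → ℂ) :=
    (Theta n (cc n)).subtype ∘ₗ (LinearMap.snd ℂ _ _) ∘ₗ (LinearMap.ker Φ).subtype
  have hκ : Function.Injective κ := by
    rw [injective_iff_map_eq_zero]
    intro p hp
    obtain ⟨g, hg, hg1, hg2⟩ := hker p.1 (LinearMap.mem_ker.mp p.2)
    have hv : ∀ z, p.1.2.1 z = 0 := by
      intro z
      have : κ p z = 0 := by rw [hp]; rfl
      exact this
    have hg0 : g = 0 := by
      by_contra hne
      apply entire_mul_ne_zero X g hX.1 hg.1 hX0 hne 0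
      funext z
      have h1 := hg1 z
      rw [hv z] at h1
      simp only [add_zero, Pi.zero_apply]
      linear_combination h1
    have hu : p.1.1 = 0 := by
      apply Subtype.ext
      funext w
      have h1 := hg2 (w - d * om)
      rw [sub_add_cancel, hg0] at h1
      simpa using h1
    have hv' : p.1.2 = 0 := by
      apply Subtype.ext
      funext w
      exact hv w
    apply Subtype.ext
    exact Prod.ext hu hv'
  let M : (ℂ → ℂ) →ₗ[ℂ] (ℂ → ℂ) :=
    { toFun := fun g z => -(X z * g z)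
      map_add' := by
        intro a b
        funext z
        simp only [Pi.add_apply]
        ring
      map_smul' := by
        intro a b
        funext z
        simp only [Pi.smul_apply, smul_eq_mul, RingHom.id_apply]
        ring }
  have hrange : LinearMap.range κ ≤ (Theta (n - d) (cc n / cc d)).map M := by
    rintro _ ⟨p, rfl⟩
    obtain ⟨g, hg, hg1, hg2⟩ := hker p.1 (LinearMap.mem_ker.mp p.2)
    refine Submodule.mem_map.mpr ⟨g, hg, ?_⟩
    funext z
    exact (hg1 z).symm
  have hkerdim : Module.finrank ℂ (LinearMap.ker Φ) ≤ n - d := by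
    have h1 : Module.finrank ℂ (LinearMap.range κ) = Module.finrank ℂ (LinearMap.ker Φ) :=
      LinearMap.finrank_range_of_inj hκ
    rw [← h1]
    refine le_trans (Submodule.finrank_mono hrange) (le_trans (Submodule.finrank_map_le M _) hle'')
  have hsum := LinearMap.finrank_range_add_finrank_ker Φ
  rw [Module.finrank_prod] at hsum
  have htop : LinearMap.range Φ = ⊤ := by
    apply Submodule.eq_top_of_finrank_eq
    have h2 := Submodule.finrank_le (LinearMap.range Φ)
    omega
  obtain ⟨p, hp⟩ : ∃ p, Φ p = ⟨y, hy⟩ := LinearMap.range_eq_top.mp htop ⟨y, hy⟩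
  refine ⟨p.1.1, p.1.2, p.2.1, p.2.2, fun z => ?_⟩
  have h3 : (Φ p).1 z = y z := by rw [hp]
  exact h3.symm

theorem B_one : (1 : Module.End ℂ (ℂ → ℂ)) ∈ B 0 := by
  refine ⟨fun _ => 1, ?_, ?_⟩
  · show (fun _ => (1 : ℂ)) ∈ Bfun 0
    rw [Bfun, if_pos rfl]
    exact Submodule.mem_span_singleton_self _
  · ext ψ z
    simp [opr]

-- TARGET:

theorem B2_h267_opr_mul (i j : ℕ) (f g : ℂ → ℂ) :
    opr i f * opr j g = opr (i + j) (fun z => f z * g (z + i * om)) := by
  apply LinearMap.ext
  intro ψ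
  funext z
  show f z * (g (z + i * om) * ψ (z + i * om + j * om)) =
    (f z * g (z + i * om)) * ψ (z + ((i + j : ℕ) : ℂ) * om)
  rw [mul_assoc]
  congr 3
  push_cast
  ring

theorem B2_h267_Bfun_mul (i j : ℕ) (f g : ℂ → ℂ) (hf : f ∈ Bfun i) (hg : g ∈ Bfun j) :
    (fun z => f z * g (z + i * om)) ∈ Bfun (i + j) := by
  by_cases hi : i = 0
  · subst hi
    have hf' : f ∈ Submodule.span ℂ {fun _ : ℂ => (1 : ℂ)} := by
      have := hf
      unfold Bfun at this
      rwa [if_pos rfl] at this
    obtain ⟨c, hc⟩ := Submodule.mem_span_singleton.mp hf'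
    have e : (fun z => f z * g (z + ((0 : ℕ) : ℂ) * om)) = c • g := by
      funext z
      rw [← hc]
      simp
    rw [e, Nat.zero_add]
    exact Submodule.smul_mem _ _ hg
  · by_cases hj : j = 0
    · subst hj
      have hg' : g ∈ Submodule.span ℂ {fun _ : ℂ => (1 : ℂ)} := by
        have := hg
        unfold Bfun at this
        rwa [if_pos rfl] at this
      obtain ⟨c, hc⟩ := Submodule.mem_span_singleton.mp hg'
      have e : (fun z => f z * g (z + (i : ℂ) * om)) = c • f := by
        funext z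
        rw [← hc]
        simp [mul_comm]
      rw [e, Nat.add_zero]
      exact Submodule.smul_mem _ _ hf
    · have hij : i + j ≠ 0 := by omega
      unfold Bfun at hf hg ⊢
      rw [if_neg hi] at hf
      rw [if_neg hj] at hg
      rw [if_neg hij]
      exact theta_mul i j f g hf hg

theorem B_mul (i j : ℕ) (a b : Module.End ℂ (ℂ → ℂ)) (ha : a ∈ B i) (hb : b ∈ B j) :
    a * b ∈ B (i + j) := by
  unfold B at ha hb ⊢
  obtain ⟨f, hf, rfl⟩ := Submodule.mem_map.mp ha
  obtain ⟨g, hg, rfl⟩ := Submodule.mem_map.mp hb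
  rw [B2_h267_opr_mul]
  exact Submodule.mem_map_of_mem (B2_h267_Bfun_mul i j f g hf hg)

theorem B_zero (a : Module.End ℂ (ℂ → ℂ)) (ha : a ∈ B 0) :
    ∃ k : ℂ, a = algebraMap ℂ (Module.End ℂ (ℂ → ℂ)) k := by
  unfold B at ha
  rw [Submodule.mem_map] at ha
  obtain ⟨f, hf, rfl⟩ := ha
  have hB : Bfun 0 = Submodule.span ℂ {fun _ => 1} := by
    unfold Bfun
    rw [if_pos rfl]
  rw [hB, Submodule.mem_span_singleton] at hf
  obtain ⟨k, rfl⟩ := hf
  refine ⟨k, ?_⟩
  ext ψ z
  rw [Module.algebraMap_end_apply]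
  simp [opr]

-- TARGET:

theorem B_fin (n : ℕ) : Module.Finite ℂ (B n) := by
  have h : Module.Finite ℂ (Bfun n) := by
    by_cases hn : n = 0
    · have e : Bfun n = Submodule.span ℂ {fun _ => 1} := by
        unfold Bfun
        rw [if_pos hn]
      rw [e]
      exact Module.Finite.span_of_finite ℂ (Set.finite_singleton _)
    · have e : Bfun n = Theta n (cc n) := by
        unfold Bfun
        rw [if_neg hn]
      rw [e]
      exact (theta_finrank_le n (Nat.pos_of_ne_zero hn) (cc n) (Complex.exp_ne_zero _)).1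
  unfold B
  exact Module.Finite.map (Bfun n) (opr n)

theorem B5_Bfun_diff (n : ℕ) (f : ℂ → ℂ) (hf : f ∈ Bfun n) : Differentiable ℂ f := by
  unfold Bfun at hf
  split_ifs at hf with h
  · rw [Submodule.mem_span_singleton] at hf
    obtain ⟨c, rfl⟩ := hf
    exact (differentiable_const (1:ℂ)).const_smul c
  · exact hf.1

-- TARGET:

theorem B_dom (i j : ℕ) (a b : Module.End ℂ (ℂ → ℂ)) (ha : a ∈ B i) (hb : b ∈ B j) (h : a * b = 0) :
    a = 0 ∨ b = 0 := by
  unfold B at ha hb
  rw [Submodule.mem_map] at ha hb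
  obtain ⟨f, hf, rfl⟩ := ha
  obtain ⟨g, hg, rfl⟩ := hb
  by_contra hcon
  rw [not_or] at hcon
  have hf0 : f ≠ 0 := by
    rintro rfl
    exact hcon.1 (map_zero _)
  have hg0 : g ≠ 0 := by
    rintro rfl
    exact hcon.2 (map_zero _)
  apply entire_mul_ne_zero f g (B5_Bfun_diff i f hf) (B5_Bfun_diff j g hg) hf0 hg0 (i * om)
  funext z
  have h1 := congrFun (LinearMap.congr_fun h (fun _ => (1:ℂ))) z
  have h2 : (opr i f * opr j g) (fun _ => (1:ℂ)) z = f z * (g (z + i * om) * 1) := rfl
  rw [h2, mul_one] at h1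
  exact h1

-- TARGET:

theorem B_star (d : ℕ) (x : Module.End ℂ (ℂ → ℂ)) (hd : 0 < d) (hx : x ∈ B d) (hx0 : x ≠ 0) :
    ∃ N : ℕ, ∀ n : ℕ, N ≤ n → ∀ y ∈ B (n + d), ∃ u ∈ B n, ∃ v ∈ B n, y = x * u + v * x := by
  have hB : ∀ k : ℕ, 0 < k → Bfun k = Theta k (cc k) := by
    intro k hk
    unfold Bfun
    rw [if_neg (by omega)]
  unfold B at hx
  rw [Submodule.mem_map] at hx
  obtain ⟨X, hX, rfl⟩ := hx
  rw [hB d hd] at hX
  have hX0 : X ≠ 0 := by
    rintro rfl
    exact hx0 (map_zero _)
  obtain ⟨N, hN⟩ := theta_star d hd X hX hX0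
  refine ⟨max N 1, ?_⟩
  intro n hn y hy
  have hnN : N ≤ n := le_trans (le_max_left _ _) hn
  have hn1 : 0 < n := lt_of_lt_of_le Nat.one_pos (le_trans (le_max_right _ _) hn)
  unfold B at hy
  rw [Submodule.mem_map] at hy
  obtain ⟨Y, hY, rfl⟩ := hy
  rw [hB (n + d) (by omega)] at hY
  obtain ⟨u, hu, v, hv, huv⟩ := hN n hnN Y hY
  refine ⟨opr n u, ?_, opr n v, ?_, ?_⟩
  · unfold B
    exact Submodule.mem_map_of_mem (by rw [hB n hn1]; exact hu)
  · unfold B
    exact Submodule.mem_map_of_mem (by rw [hB n hn1]; exact hv)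
  · apply LinearMap.ext
    intro ψ
    funext z
    simp only [LinearMap.add_apply, Module.End.mul_apply, Pi.add_apply]
    show Y z * ψ (z + ((n + d : ℕ) : ℂ) * om) =
      X z * (u (z + d * om) * ψ (z + d * om + n * om)) +
      v z * (X (z + n * om) * ψ (z + n * om + d * om))
    rw [huv z]
    have e1 : z + ((n + d : ℕ) : ℂ) * om = z + d * om + n * om := by push_cast; ring
    have e2 : z + (n : ℂ) * om + d * om = z + d * om + n * om := by ring
    rw [e1, e2]
    ring

theorem chain_stab (K A : Type) [Field K] [Ring A] [Algebra K A] (x : A) (F : Submodule K A)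
    (hF : Module.Finite K F)
    (hgen : ∀ M : Submodule K A, F ≤ M → (∀ y ∈ M, x * y ∈ M ∧ y * x ∈ M) → M = ⊤)
    (L : ℕ → Submodule K A) (hL : Monotone L) (hs : ∀ i, ∀ y ∈ L i, x * y ∈ L i ∧ y * x ∈ L i) :
    ∃ i0, ∀ i, i0 ≤ i → L i = L i0 := by
  classical
  set l : Module.End K A := LinearMap.mulLeft K x with hl
  set r : Module.End K A := LinearMap.mulRight K x with hr
  have hlr : l * r = r * l := by
    apply LinearMap.ext
    intro y
    simp [hl, hr, Module.End.mul_apply, mul_assoc]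
  have hcomm : ∀ a ∈ ({l, r} : Set (Module.End K A)), ∀ b ∈ ({l, r} : Set (Module.End K A)),
      a * b = b * a := by
    intro a ha b hb
    simp only [Set.mem_insert_iff, Set.mem_singleton_iff] at ha hb
    rcases ha with rfl | rfl <;> rcases hb with rfl | rfl
    · rfl
    · exact hlr
    · exact hlr.symm
    · rfl
  letI cS : CommRing (Algebra.adjoin K ({l, r} : Set (Module.End K A))) :=
    Algebra.adjoinCommRingOfComm K hcomm
  have hl' : l ∈ Algebra.adjoin K ({l, r} : Set (Module.End K A)) :=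
    Algebra.subset_adjoin (by simp)
  have hr' : r ∈ Algebra.adjoin K ({l, r} : Set (Module.End K A)) :=
    Algebra.subset_adjoin (by simp)
  let φ0 : MvPolynomial (Fin 2) K →ₐ[K] (Algebra.adjoin K ({l, r} : Set (Module.End K A))) :=
    MvPolynomial.aeval ![⟨l, hl'⟩, ⟨r, hr'⟩]
  let φ : MvPolynomial (Fin 2) K →ₐ[K] Module.End K A :=
    (Algebra.adjoin K ({l, r} : Set (Module.End K A))).val.comp φ0
  have hφ0 : φ (MvPolynomial.X 0) = l := by
    simp [φ, φ0]
  have hφ1 : φ (MvPolynomial.X 1) = r := by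
    simp [φ, φ0]
  letI mP : Module (MvPolynomial (Fin 2) K) A := Module.compHom A φ.toRingHom
  have hsmul : ∀ (p : MvPolynomial (Fin 2) K) (y : A), p • y = φ p y := fun p y => rfl
  -- stable subspaces are submodules
  have stab : ∀ (M : Submodule K A), (∀ y ∈ M, x * y ∈ M ∧ y * x ∈ M) →
      ∀ (p : MvPolynomial (Fin 2) K), ∀ y ∈ M, p • y ∈ M := by
    intro M hM p
    induction p using MvPolynomial.induction_on with
    | C a =>
      intro y hy
      rw [hsmul]
      have : φ (MvPolynomial.C a) = algebraMap K (Module.End K A) a := by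
        have := φ.commutes a
        simpa [MvPolynomial.algebraMap_eq] using this
      rw [this, Module.algebraMap_end_apply]
      exact M.smul_mem _ hy
    | add p q hp hq =>
      intro y hy
      rw [add_smul]
      exact M.add_mem (hp y hy) (hq y hy)
    | mul_X p i hp =>
      intro y hy
      rw [mul_smul]
      apply hp
      rw [hsmul]
      fin_cases i
      · show φ (MvPolynomial.X 0) y ∈ M
        rw [hφ0, hl, LinearMap.mulLeft_apply]
        exact (hM y hy).1
      · show φ (MvPolynomial.X 1) y ∈ M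
        rw [hφ1, hr, LinearMap.mulRight_apply]
        exact (hM y hy).2
  let toP : (M : Submodule K A) → (∀ y ∈ M, x * y ∈ M ∧ y * x ∈ M) →
      Submodule (MvPolynomial (Fin 2) K) A := fun M hM =>
    { carrier := M
      add_mem' := fun ha hb => M.add_mem ha hb
      zero_mem' := M.zero_mem
      smul_mem' := fun p y hy => stab M hM p y hy }
  -- finite generation
  obtain ⟨s, hs'⟩ : F.FG := Module.Finite.iff_fg.mp hF
  have htop : Submodule.span (MvPolynomial (Fin 2) K) (s : Set A) = ⊤ := by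
    have hKsmul : ∀ (a : K) (y : A), (MvPolynomial.C a : MvPolynomial (Fin 2) K) • y = a • y := by
      intro a y
      rw [hsmul]
      have : φ (MvPolynomial.C a) = algebraMap K (Module.End K A) a := by
        have := φ.commutes a
        simpa [MvPolynomial.algebraMap_eq] using this
      rw [this, Module.algebraMap_end_apply]
    let N : Submodule K A :=
      { carrier := (Submodule.span (MvPolynomial (Fin 2) K) (s : Set A) : Set A)
        add_mem' := fun ha hb => Submodule.add_mem _ ha hb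
        zero_mem' := Submodule.zero_mem _
        smul_mem' := fun a y hy => by
          rw [← hKsmul a y]
          exact Submodule.smul_mem _ _ hy }
    have hN : N = ⊤ := by
      apply hgen
      · rw [← hs', Submodule.span_le]
        intro y hy
        exact Submodule.subset_span hy
      · intro y hy
        constructor
        · have : (MvPolynomial.X 0 : MvPolynomial (Fin 2) K) • y = x * y := by
            rw [hsmul, hφ0, hl, LinearMap.mulLeft_apply]
          rw [← this]
          exact Submodule.smul_mem (Submodule.span (MvPolynomial (Fin 2) K) (s : Set A)) _ hy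
        · have : (MvPolynomial.X 1 : MvPolynomial (Fin 2) K) • y = y * x := by
            rw [hsmul, hφ1, hr, LinearMap.mulRight_apply]
          rw [← this]
          exact Submodule.smul_mem (Submodule.span (MvPolynomial (Fin 2) K) (s : Set A)) _ hy
    rw [eq_top_iff]
    intro y _
    have : y ∈ N := by rw [hN]; trivial
    exact this
  haveI : Module.Finite (MvPolynomial (Fin 2) K) A := ⟨⟨s, htop⟩⟩
  haveI : IsNoetherian (MvPolynomial (Fin 2) K) A := isNoetherian_of_isNoetherianRing_of_finite _ _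
  let g : ℕ →o Submodule (MvPolynomial (Fin 2) K) A :=
    ⟨fun i => toP (L i) (hs i), fun i j hij y hy => hL hij hy⟩
  obtain ⟨n, hn⟩ := monotone_stabilizes_iff_noetherian.mpr ‹IsNoetherian (MvPolynomial (Fin 2) K) A› g
  refine ⟨n, fun i hi => ?_⟩
  have h := hn i hi
  apply Submodule.ext
  intro y
  have h2 : y ∈ g n ↔ y ∈ g i := by rw [h]
  exact h2.symm

theorem gsub_gen (K R : Type) [Field K] [Ring R] [Algebra K R] (B : ℕ → Submodule K R) (h1 : (1 : R) ∈ B 0)
    (hm : ∀ i j a b, a ∈ B i → b ∈ B j → a * b ∈ B (i + j)) (hfin : ∀ n, Module.Finite K (B n))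
    (d N : ℕ) (hd : 0 < d) (x : R) (hx : x ∈ B d)
    (hstar : ∀ n, N ≤ n → ∀ y ∈ B (n + d), ∃ u ∈ B n, ∃ v ∈ B n, y = x * u + v * x)
    (X : gsub K R B h1 hm) (hX : (X : Polynomial R) = Polynomial.monomial d x) :
    ∃ F : Submodule K (gsub K R B h1 hm), Module.Finite K F ∧
      ∀ M : Submodule K (gsub K R B h1 hm), F ≤ M → (∀ y ∈ M, X * y ∈ M ∧ y * X ∈ M) → M = ⊤ := by
  classical
  let F : Submodule K (gsub K R B h1 hm) :=
    { carrier := {p | ∀ n, N + d ≤ n → (p : Polynomial R).coeff n = 0}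
      add_mem' := by
        intro p q hp hq n hn
        have e1 := hp n hn
        have e2 := hq n hn
        simp only [Subalgebra.coe_add, Polynomial.coeff_add, e1, e2, add_zero]
      zero_mem' := by
        intro n _
        simp
      smul_mem' := by
        intro c p hp n hn
        have e1 := hp n hn
        simp only [Subalgebra.coe_smul, Polynomial.coeff_smul, e1, smul_zero] }
  have hFmem : ∀ p : gsub K R B h1 hm, p ∈ F ↔ ∀ n, N + d ≤ n → (p : Polynomial R).coeff n = 0 :=
    fun p => Iff.rfl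
  refine ⟨F, ?_, ?_⟩
  · let φ : F →ₗ[K] (∀ i : Fin (N + d), B i) :=
      { toFun := fun p i => ⟨((p.1 : gsub K R B h1 hm) : Polynomial R).coeff i, p.1.2 i⟩
        map_add' := by
          intro p q
          funext i
          apply Subtype.ext
          simp
        map_smul' := by
          intro c p
          funext i
          apply Subtype.ext
          simp }
    have hφ : Function.Injective φ := by
      intro p q hpq
      apply Subtype.ext
      apply Subtype.ext
      ext n
      by_cases hn : n < N + d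
      · have := congrFun hpq ⟨n, hn⟩
        have := congrArg Subtype.val this
        simpa [φ] using this
      · rw [(hFmem p.1).1 p.2 n (by omega), (hFmem q.1).1 q.2 n (by omega)]
    haveI : ∀ i : Fin (N + d), Module.Finite K (B i) := fun i => hfin i
    exact Module.Finite.of_injective φ hφ
  · intro M hFM hM
    have hmon : ∀ n u, u ∈ B n → (Polynomial.monomial n u : Polynomial R) ∈ gsub K R B h1 hm := by
      intro n u hu k
      rw [Polynomial.coeff_monomial]
      split_ifs with h
      · subst h; exact hu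
      · exact Submodule.zero_mem _
    have key : ∀ m : ℕ, ∀ p : gsub K R B h1 hm,
        (∀ n, m ≤ n → (p : Polynomial R).coeff n = 0) → p ∈ M := by
      intro m
      induction m with
      | zero =>
        intro p hp
        exact hFM ((hFmem p).2 fun n _ => hp n (Nat.zero_le _))
      | succ m ih =>
        intro p hp
        by_cases hmN : m < N + d
        · exact hFM ((hFmem p).2 fun n hn => hp n (by omega))
        · have hn1 : N ≤ m - d := by omega
          have hmd : m - d + d = m := by omega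
          obtain ⟨u, hu, v, hv, huv⟩ := hstar (m - d) hn1 ((p : Polynomial R).coeff m)
            (by rw [hmd]; exact p.2 m)
          set U : gsub K R B h1 hm := ⟨Polynomial.monomial (m - d) u, hmon _ _ hu⟩ with hU
          set V : gsub K R B h1 hm := ⟨Polynomial.monomial (m - d) v, hmon _ _ hv⟩ with hV
          have hUM : U ∈ M := by
            apply ih
            intro n hn
            show (Polynomial.monomial (m - d) u).coeff n = 0
            rw [Polynomial.coeff_monomial, if_neg (by omega)]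
          have hVM : V ∈ M := by
            apply ih
            intro n hn
            show (Polynomial.monomial (m - d) v).coeff n = 0
            rw [Polynomial.coeff_monomial, if_neg (by omega)]
          have hq : p - (X * U + V * X) ∈ M := by
            apply ih
            intro n hn
            have e1 : ((p - (X * U + V * X) : gsub K R B h1 hm) : Polynomial R) =
                (p : Polynomial R) - (Polynomial.monomial d x * Polynomial.monomial (m - d) u +
                  Polynomial.monomial (m - d) v * Polynomial.monomial d x) := by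
              rw [Subalgebra.coe_sub, Subalgebra.coe_add, Subalgebra.coe_mul, Subalgebra.coe_mul, hX]
            rw [e1, Polynomial.monomial_mul_monomial, Polynomial.monomial_mul_monomial,
              Polynomial.coeff_sub, Polynomial.coeff_add, Polynomial.coeff_monomial,
              Polynomial.coeff_monomial]
            rcases Nat.eq_or_lt_of_le hn with h | h
            · subst h
              rw [if_pos (by omega), if_pos (by omega), huv, sub_self]
            · rw [if_neg (by omega), if_neg (by omega), hp n (by omega)]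
              simp
          have : p = (p - (X * U + V * X)) + (X * U + V * X) := by simp
          rw [this]
          exact M.add_mem hq (M.add_mem (hM U hUM).1 (hM V hVM).2)
    rw [eq_top_iff]
    intro p _
    exact key ((p : Polynomial R).natDegree + 1) p
      (fun n hn => Polynomial.coeff_eq_zero_of_natDegree_lt (by omega))

/-- the leading forms -/
def N3a_leadSet (K R : Type) [Field K] [Ring R] [Algebra K R] (B : ℕ → Submodule K R) (h1 : (1 : R) ∈ B 0)
    (hm : ∀ i j a b, a ∈ B i → b ∈ B j → a * b ∈ B (i + j)) (C : Subalgebra K (gsub K R B h1 hm)) :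
    Set (gsub K R B h1 hm) :=
  {q | ∃ p ∈ C, ∃ n : ℕ, (∀ m, n < m → (p : Polynomial R).coeff m = 0) ∧
    (q : Polynomial R) = Polynomial.monomial n ((p : Polynomial R).coeff n)}

theorem N3a_leadSet_coeff (K R : Type) [Field K] [Ring R] [Algebra K R] (B : ℕ → Submodule K R)
    (h1 : (1 : R) ∈ B 0)
    (hm : ∀ i j a b, a ∈ B i → b ∈ B j → a * b ∈ B (i + j)) (C : Subalgebra K (gsub K R B h1 hm))
    (n : ℕ) (y : gsub K R B h1 hm) (hy : y ∈ Submodule.span K (N3a_leadSet K R B h1 hm C)) :
    ∃ p0 ∈ C, (∀ m, n < m → (p0 : Polynomial R).coeff m = 0) ∧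
      (p0 : Polynomial R).coeff n = (y : Polynomial R).coeff n := by
  induction hy using Submodule.span_induction with
  | mem y hy =>
    obtain ⟨p, hp, k, hk, hq⟩ := hy
    by_cases h : k = n
    · subst h
      refine ⟨p, hp, hk, ?_⟩
      rw [hq, Polynomial.coeff_monomial, if_pos rfl]
    · refine ⟨0, zero_mem _, fun m _ => by simp, ?_⟩
      rw [hq, Polynomial.coeff_monomial, if_neg h]
      simp
  | zero => exact ⟨0, zero_mem _, fun m _ => by simp, by simp⟩
  | add a b _ _ ha hb =>
    obtain ⟨p, hp, hp1, hp2⟩ := ha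
    obtain ⟨q, hq, hq1, hq2⟩ := hb
    refine ⟨p + q, add_mem hp hq, fun m hmn => ?_, ?_⟩
    · simp [hp1 m hmn, hq1 m hmn]
    · simp [hp2, hq2]
  | smul r a _ ha =>
    obtain ⟨p, hp, hp1, hp2⟩ := ha
    refine ⟨r • p, Subalgebra.smul_mem _ hp r, fun m hmn => ?_, ?_⟩
    · simp [hp1 m hmn]
    · simp [hp2]

theorem lead_exists (K R : Type) [Field K] [Ring R] [Algebra K R] (B : ℕ → Submodule K R) (h1 : (1 : R) ∈ B 0)
    (hm : ∀ i j a b, a ∈ B i → b ∈ B j → a * b ∈ B (i + j)) :
    ∃ lead : Subalgebra K (gsub K R B h1 hm) → Submodule K (gsub K R B h1 hm),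
      Monotone lead ∧
      (∀ C C', C ≤ C' → lead C = lead C' → C = C') ∧
      (∀ C, ∀ p : gsub K R B h1 hm, p ∈ C → ∀ X : gsub K R B h1 hm,
        (X : Polynomial R) = Polynomial.monomial (p : Polynomial R).natDegree (p : Polynomial R).leadingCoeff →
        ∀ y ∈ lead C, X * y ∈ lead C ∧ y * X ∈ lead C) := by
  refine ⟨fun C => Submodule.span K (N3a_leadSet K R B h1 hm C), ?_, ?_, ?_⟩
  · intro C C' hC
    apply Submodule.span_mono
    rintro q ⟨p, hp, n, hn, hq⟩
    exact ⟨p, hC hp, n, hn, hq⟩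
  · intro C C' hC hl
    apply le_antisymm hC
    have key : ∀ n : ℕ, ∀ p : gsub K R B h1 hm, p ∈ C' →
        (∀ m, n ≤ m → (p : Polynomial R).coeff m = 0) → p ∈ C := by
      intro n
      induction n with
      | zero =>
        intro p hp h0
        have : p = 0 := by
          apply Subtype.ext
          ext m
          rw [h0 m (Nat.zero_le m)]
          simp
        rw [this]
        exact zero_mem _
      | succ n ih =>
        intro p hp h0
        have hqm : Polynomial.monomial n ((p : Polynomial R).coeff n) ∈ gsub K R B h1 hm := by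
          intro k
          rw [Polynomial.coeff_monomial]
          split_ifs with h
          · subst h
            exact p.2 n
          · exact Submodule.zero_mem _
        have hq : (⟨_, hqm⟩ : gsub K R B h1 hm) ∈ Submodule.span K (N3a_leadSet K R B h1 hm C) := by
          have h2 : (⟨_, hqm⟩ : gsub K R B h1 hm) ∈ Submodule.span K (N3a_leadSet K R B h1 hm C') :=
            Submodule.subset_span ⟨p, hp, n, fun m hmn => h0 m hmn, rfl⟩
          have h3 : Submodule.span K (N3a_leadSet K R B h1 hm C) =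
            Submodule.span K (N3a_leadSet K R B h1 hm C') := hl
          rw [h3]
          exact h2
        obtain ⟨p0, hp0, hp1, hp2⟩ := N3a_leadSet_coeff K R B h1 hm C n _ hq
        have hsub : p - p0 ∈ C := by
          apply ih _ (sub_mem hp (hC hp0))
          intro m hmn
          rcases hmn.eq_or_lt with rfl | hlt
          · have : (p0 : Polynomial R).coeff n = (p : Polynomial R).coeff n := by
              rw [hp2]
              simp [Polynomial.coeff_monomial]
            simp [this]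
          · have := hp1 m hlt
            have h' := h0 m hlt
            simp [this, h']
        have := add_mem hsub hp0
        rwa [sub_add_cancel] at this
    intro p hp
    refine key ((p : Polynomial R).natDegree + 1) p hp fun m hmn => ?_
    exact Polynomial.coeff_eq_zero_of_natDegree_lt hmn
  · intro C p hp X hX y hy
    have main : ∀ y ∈ Submodule.span K (N3a_leadSet K R B h1 hm C),
        X * y ∈ Submodule.span K (N3a_leadSet K R B h1 hm C) ∧
        y * X ∈ Submodule.span K (N3a_leadSet K R B h1 hm C) := by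
      intro y hy
      induction hy using Submodule.span_induction with
      | mem y hy =>
        obtain ⟨p2, hp2, n, hn, hq⟩ := hy
        have hd : (p2 : Polynomial R).natDegree ≤ n := by
          rw [Polynomial.natDegree_le_iff_coeff_eq_zero]
          exact hn
        refine ⟨Submodule.subset_span ⟨p * p2, mul_mem hp hp2, (p : Polynomial R).natDegree + n,
          fun m hmn => ?_, ?_⟩, Submodule.subset_span ⟨p2 * p, mul_mem hp2 hp,
            n + (p : Polynomial R).natDegree, fun m hmn => ?_, ?_⟩⟩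
        · apply Polynomial.coeff_eq_zero_of_natDegree_lt
          refine lt_of_le_of_lt ?_ hmn
          exact Polynomial.natDegree_mul_le_of_le le_rfl hd
        · have e1 : ((X * y : gsub K R B h1 hm) : Polynomial R) = (X : Polynomial R) * y := rfl
          have e2 : ((p * p2 : gsub K R B h1 hm) : Polynomial R) = (p : Polynomial R) * p2 := rfl
          rw [e1, e2, hX, hq, Polynomial.monomial_mul_monomial,
            Polynomial.coeff_mul_add_eq_of_natDegree_le le_rfl hd]
          rfl
        · apply Polynomial.coeff_eq_zero_of_natDegree_lt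
          refine lt_of_le_of_lt ?_ hmn
          exact Polynomial.natDegree_mul_le_of_le hd le_rfl
        · have e1 : ((y * X : gsub K R B h1 hm) : Polynomial R) = (y : Polynomial R) * X := rfl
          have e2 : ((p2 * p : gsub K R B h1 hm) : Polynomial R) = (p2 : Polynomial R) * p := rfl
          rw [e1, e2, hX, hq, Polynomial.monomial_mul_monomial,
            Polynomial.coeff_mul_add_eq_of_natDegree_le hd le_rfl]
          rfl
      | zero => simp
      | add a b _ _ ha hb =>
        rw [mul_add, add_mul]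
        exact ⟨add_mem ha.1 hb.1, add_mem ha.2 hb.2⟩
      | smul r a _ ha =>
        rw [mul_smul_comm, smul_mul_assoc]
        exact ⟨Submodule.smul_mem _ r ha.1, Submodule.smul_mem _ r ha.2⟩
    exact main y hy

-- TARGET:

theorem gsub_acc (K R : Type) [Field K] [Ring R] [Algebra K R] (B : ℕ → Submodule K R) (h1 : (1 : R) ∈ B 0)
    (hm : ∀ i j a b, a ∈ B i → b ∈ B j → a * b ∈ B (i + j)) (hfin : ∀ n, Module.Finite K (B n))
    (hzero : ∀ a ∈ B 0, ∃ k : K, a = algebraMap K R k)
    (hstar : ∀ d x, 0 < d → x ∈ B d → x ≠ 0 → ∃ N, ∀ n, N ≤ n → ∀ y ∈ B (n + d),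
      ∃ u ∈ B n, ∃ v ∈ B n, y = x * u + v * x) :
    WellFoundedGT (Subalgebra K (gsub K R B h1 hm)) := by
  rw [wellFoundedGT_iff_monotone_chain_condition]
  intro C
  by_cases H : ∀ i, ∀ p : gsub K R B h1 hm, p ∈ C i → (p : Polynomial R).natDegree = 0
  · have hbot : ∀ i, C i = ⊥ := by
      intro i
      rw [eq_bot_iff]
      intro p hp
      have hd := H i p hp
      obtain ⟨k, hk⟩ := hzero _ (p.2 0)
      have hp1 : (p : Polynomial R) = Polynomial.C ((p : Polynomial R).coeff 0) :=
        Polynomial.eq_C_of_natDegree_eq_zero hd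
      have hp2 : p = algebraMap K (gsub K R B h1 hm) k := by
        apply Subtype.ext
        rw [hp1, hk]
        rfl
      rw [hp2]
      exact Subalgebra.algebraMap_mem _ k
    exact ⟨0, fun m _ => by rw [hbot, hbot]⟩
  · push Not at H
    obtain ⟨i0, p, hpC, hpd⟩ := H
    set d := (p : Polynomial R).natDegree with hd
    set x := (p : Polynomial R).leadingCoeff with hx
    have hp0 : (p : Polynomial R) ≠ 0 := by
      intro h0
      rw [hd, h0] at hpd
      exact hpd Polynomial.natDegree_zero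
    have hx0 : x ≠ 0 := by
      rw [hx]
      exact Polynomial.leadingCoeff_ne_zero.2 hp0
    have hxB : x ∈ B d := p.2 d
    have hXm : Polynomial.monomial d x ∈ gsub K R B h1 hm := by
      intro n
      rw [Polynomial.coeff_monomial]
      split_ifs with h
      · rw [← h]
        exact hxB
      · exact Submodule.zero_mem _
    obtain ⟨N, hN⟩ := hstar d x (Nat.pos_of_ne_zero hpd) hxB hx0
    obtain ⟨F, hF, hgen⟩ := gsub_gen K R B h1 hm hfin d N (Nat.pos_of_ne_zero hpd) x hxB hN
      ⟨Polynomial.monomial d x, hXm⟩ rfl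
    obtain ⟨lead, hmono, hinj, hmul⟩ := lead_exists K R B h1 hm
    obtain ⟨j0, hj0⟩ := chain_stab K (gsub K R B h1 hm) ⟨Polynomial.monomial d x, hXm⟩ F hF hgen
      (fun i => lead (C (i0 + i))) (fun a b hab => hmono (C.monotone (by omega)))
      (fun i y hy => hmul (C (i0 + i)) p (C.monotone (by omega : i0 ≤ i0 + i) hpC)
        ⟨Polynomial.monomial d x, hXm⟩ rfl y hy)
    refine ⟨i0 + j0, fun m hm' => ?_⟩
    have h2 := hj0 (m - i0) (by omega)
    have h3 : i0 + (m - i0) = m := by omega
    simp only [h3] at h2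
    exact hinj _ _ (C.monotone hm') h2.symm

theorem gsub_domain (K R : Type) [Field K] [Ring R] [Algebra K R] (B : ℕ → Submodule K R) (h1 : (1 : R) ∈ B 0)
    (hm : ∀ i j a b, a ∈ B i → b ∈ B j → a * b ∈ B (i + j))
    (hdom : ∀ i j a b, a ∈ B i → b ∈ B j → a * b = 0 → a = 0 ∨ b = 0) :
    NoZeroDivisors (gsub K R B h1 hm) := by
  refine ⟨?_⟩
  rintro ⟨p, hp⟩ ⟨q, hq⟩ hpq
  have hpq' : p * q = 0 := congrArg Subtype.val hpq
  by_contra hcon
  rw [not_or] at hcon
  have hp0 : p ≠ 0 := fun h => hcon.1 (Subtype.ext h)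
  have hq0 : q ≠ 0 := fun h => hcon.2 (Subtype.ext h)
  have hc := Polynomial.coeff_mul_degree_add_degree p q
  rw [hpq', Polynomial.coeff_zero] at hc
  have hp' : ∀ n, p.coeff n ∈ B n := hp
  have hq' : ∀ n, q.coeff n ∈ B n := hq
  rcases hdom p.natDegree q.natDegree _ _ (hp' _) (hq' _) hc.symm with h | h
  · exact hp0 (Polynomial.leadingCoeff_eq_zero.1 h)
  · exact hq0 (Polynomial.leadingCoeff_eq_zero.1 h)

theorem not_pi_of_words (K A : Type) [Field K] [Ring A] [Algebra K A]
    (h : ∀ (m : ℕ) (w : List (Fin m)), ∃ (v : Fin m → A) (φ : A →ₗ[K] K),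
      ∀ l : List (Fin m), φ ((l.map v).prod) = if l = w then 1 else 0) :
    ¬ ∃ (n : ℕ) (f : FreeAlgebra K (Fin n)), f ≠ 0 ∧ ∀ v : Fin n → A, FreeAlgebra.lift K v f = 0 := by
  classical
  rintro ⟨n, f, hf, hv⟩
  let E := FreeAlgebra.equivMonoidAlgebraFreeMonoid (R := K) (X := Fin n)
  have hF : E f ≠ 0 := by
    intro h0
    exact hf (E.injective (by rw [h0, map_zero]))
  have hex : ∃ w, (E f).coeff w ≠ 0 := by
    by_contra hcon
    push Not at hcon
    exact hF (by ext w; simpa using hcon w)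
  obtain ⟨w, hw⟩ := hex
  obtain ⟨v, φ, hφ⟩ := h n w.toList
  have hlift : FreeAlgebra.lift K v =
      (MonoidAlgebra.lift K A (FreeMonoid (Fin n)) (FreeMonoid.lift v)).comp
        (E : FreeAlgebra K (Fin n) →ₐ[K] MonoidAlgebra K (FreeMonoid (Fin n))) := by
    apply FreeAlgebra.hom_ext
    funext x
    simp [E, FreeAlgebra.equivMonoidAlgebraFreeMonoid]
  have h1 : FreeAlgebra.lift K v f = (E f).coeff.sum fun a b => b • FreeMonoid.lift v a := by
    rw [hlift]
    exact MonoidAlgebra.lift_apply _ _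
  have h2 : φ (FreeAlgebra.lift K v f) = (E f).coeff w := by
    rw [h1, Finsupp.sum, map_sum]
    have h3 : ∀ a ∈ (E f).coeff.support, φ ((E f).coeff a • FreeMonoid.lift v a) =
        if a = w then (E f).coeff a else 0 := by
      intro a _
      rw [map_smul, FreeMonoid.lift_apply, hφ, smul_eq_mul]
      by_cases hc : a = w
      · subst hc; simp
      · rw [if_neg hc, if_neg (fun h => hc (FreeMonoid.toList.injective h)), mul_zero]
    rw [Finset.sum_congr rfl h3, Finset.sum_ite_eq', if_pos (Finsupp.mem_support_iff.2 hw)]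
  rw [hv v, map_zero] at h2
  exact hw h2.symm

-- TARGET:

theorem Q2_w_prod_monomial {R : Type} [Ring R] {m : ℕ} (n : ℕ) (F : Fin m → R) (l : List (Fin m)) :
    (l.map (fun a => Polynomial.monomial n (F a))).prod =
      Polynomial.monomial (l.length * n) ((l.map F).prod) := by
  induction l with
  | nil => simp
  | cons a l ih =>
    rw [List.map_cons, List.prod_cons, ih, Polynomial.monomial_mul_monomial, List.map_cons,
      List.prod_cons, List.length_cons]
    have h1 : n + l.length * n = (l.length + 1) * n := by ring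
    rw [h1]

theorem words (m : ℕ) (w : List (Fin m)) :
    ∃ (v : Fin m → gsub ℂ (Module.End ℂ (ℂ → ℂ)) B B_one B_mul)
      (φ : gsub ℂ (Module.End ℂ (ℂ → ℂ)) B B_one B_mul →ₗ[ℂ] ℂ),
      ∀ l : List (Fin m), φ ((l.map v).prod) = if l = w then 1 else 0 := by
  classical
  obtain ⟨n, hn, hS⟩ := theta_interp w.length
  choose f hf1 hf2 using fun a : Fin m =>
    hS ((Finset.range w.length).filter (fun i => w[i]? = some a))
  have hB : ∀ a, opr n (f a) ∈ B n := by
    intro a
    unfold B
    refine Submodule.mem_map_of_mem ?_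
    unfold Bfun
    rw [if_neg hn.ne']
    exact hf1 a
  let v : Fin m → gsub ℂ (Module.End ℂ (ℂ → ℂ)) B B_one B_mul := fun a =>
    ⟨Polynomial.monomial n (opr n (f a)), by
      intro k
      rw [Polynomial.coeff_monomial]
      split_ifs with h
      · subst h
        exact hB a
      · exact Submodule.zero_mem _⟩
  let φ : gsub ℂ (Module.End ℂ (ℂ → ℂ)) B B_one B_mul →ₗ[ℂ] ℂ :=
    { toFun := fun p => ((p : Polynomial (Module.End ℂ (ℂ → ℂ))).coeff (w.length * n))
        (fun _ => 1) 0
      map_add' := by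
        intro p q
        simp
      map_smul' := by
        intro c p
        simp }
  refine ⟨v, φ, ?_⟩
  intro l
  have hcoe : (((l.map v).prod : gsub ℂ (Module.End ℂ (ℂ → ℂ)) B B_one B_mul) :
      Polynomial (Module.End ℂ (ℂ → ℂ))) =
      Polynomial.monomial (l.length * n) ((l.map (fun a => opr n (f a))).prod) := by
    rw [← Q2_w_prod_monomial]
    rw [SubmonoidClass.coe_list_prod, List.map_map]
    rfl
  have hφ : φ ((l.map v).prod) = ((((l.map v).prod : gsub ℂ (Module.End ℂ (ℂ → ℂ)) B B_one B_mul) :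
      Polynomial (Module.End ℂ (ℂ → ℂ))).coeff (w.length * n)) (fun _ => 1) 0 := rfl
  rw [hφ, hcoe, Polynomial.coeff_monomial]
  -- evaluation
  have hQ : ∀ (l : List (Fin m)) (k : ℕ), k + l.length = w.length →
      ((l.map (fun a => opr n (f a))).prod) (fun _ => (1:ℂ)) (((k * n : ℕ) : ℂ) * om) =
        if l = w.drop k then 1 else 0 := by
    intro l
    induction l with
    | nil =>
      intro k hk
      simp only [List.length_nil, add_zero] at hk
      have : w.drop k = [] := by rw [hk, List.drop_length]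
      rw [this]
      simp
    | cons a l ih =>
      intro k hk
      rw [List.length_cons] at hk
      have hkl : k < w.length := by omega
      have e1 : ((((a :: l).map (fun a => opr n (f a))).prod) (fun _ => (1:ℂ)))
          (((k * n : ℕ) : ℂ) * om) = f a (((k * n : ℕ) : ℂ) * om) *
          (((l.map (fun a => opr n (f a))).prod) (fun _ => (1:ℂ)))
            (((k * n : ℕ) : ℂ) * om + n * om) := by
        rw [List.map_cons, List.prod_cons]
        rfl
      have e2 : ((k * n : ℕ) : ℂ) * om + n * om = (((k + 1) * n : ℕ) : ℂ) * om := by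
        push_cast
        ring
      rw [e1, e2, ih (k + 1) (by omega), hf2 a k hkl]
      have e3 : w.drop k = w[k] :: w.drop (k + 1) := List.drop_eq_getElem_cons hkl
      have e4 : (k ∈ (Finset.range w.length).filter (fun i => w[i]? = some a)) ↔ a = w[k] := by
        rw [Finset.mem_filter, Finset.mem_range, List.getElem?_eq_getElem hkl]
        constructor
        · rintro ⟨_, h⟩
          exact (Option.some.inj h).symm
        · intro h
          exact ⟨hkl, by rw [h]⟩
      rw [e3]
      simp only [e4, List.cons.injEq]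
      by_cases h1 : a = w[k]
      · by_cases h2 : l = w.drop (k + 1)
        · simp [h1, h2]
        · simp [h2]
      · simp [h1]
  by_cases hlen : l.length = w.length
  · rw [if_pos (by rw [hlen])]
    have h1 := hQ l 0 (by rw [zero_add, hlen])
    simp only [zero_mul, Nat.cast_zero, List.drop_zero] at h1
    exact h1
  · rw [if_neg (fun h => hlen (Nat.eq_of_mul_eq_mul_right hn h)), if_neg (fun h => hlen (by rw [h]))]
    rfl


theorem main : ∃ (A : Type) (_ : Ring A) (_ : Algebra ℂ A), NoZeroDivisors A ∧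
    WellFoundedGT (Subalgebra ℂ A) ∧
    ¬ ∃ (n : ℕ) (f : FreeAlgebra ℂ (Fin n)), f ≠ 0 ∧ ∀ v : Fin n → A, FreeAlgebra.lift ℂ v f = 0 :=
  ⟨gsub ℂ (Module.End ℂ (ℂ → ℂ)) B B_one B_mul, inferInstance, inferInstance,
    gsub_domain _ _ _ _ _ B_dom,
    gsub_acc _ _ _ _ _ B_fin B_zero (fun d x hd hx hx0 => B_star d x hd hx hx0),
    not_pi_of_words _ _ words⟩



end Pool.Agent.Helper877.Ell
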